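import Mathlib

set_option autoImplicit false

namespace Pool.Agent.Lib.MP_107960_al.H44

variable {G : Type*} [Group G]

/-- conjugation `x^y = y⁻¹ x y` -/
def cj (x y : G) : G := y⁻¹ * x * y

/-- commutator `[x,y] = x⁻¹ y⁻¹ x y` -/
def cm (x y : G) : G := x⁻¹ * y⁻¹ * x * y

/-- the law `[x,y]^3 = 1` -/
def Law (G : Type*) [Group G] : Prop := ∀ x y : G, (cm x y) ^ 3 = 1

theorem cj_eq (x y : G) : cj x y = x * cm x y := by simp [cj, cm, mul_assoc]

theorem cm_eq (x y : G) : cm x y = x⁻¹ * cj x y := by simp [cj, cm, mul_assoc]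

theorem cj_one (x : G) : cj x 1 = x := by simp [cj]

theorem one_cj (y : G) : cj 1 y = 1 := by simp [cj]

theorem cj_mul (x y z : G) : cj x (y * z) = cj (cj x y) z := by
  simp [cj, mul_assoc]

theorem mul_cj (x x' y : G) : cj (x * x') y = cj x y * cj x' y := by
  simp [cj, mul_assoc]

theorem inv_cj (x y : G) : cj x⁻¹ y = (cj x y)⁻¹ := by
  simp [cj, mul_assoc]

theorem pow_cj (x y : G) (n : ℕ) : cj (x ^ n) y = (cj x y) ^ n := by
  induction n with
  | zero => simp [cj]
  | succ n ih => rw [pow_succ, mul_cj, ih, pow_succ]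

theorem cj_cj_inv (x y : G) : cj (cj x y) y⁻¹ = x := by
  simp [cj, mul_assoc]

theorem cj_inv_cj (x y : G) : cj (cj x y⁻¹) y = x := by
  simp [cj, mul_assoc]

theorem cj_inj {x x' y : G} (h : cj x y = cj x' y) : x = x' := by
  rw [← cj_cj_inv x y, h, cj_cj_inv]

theorem cm_cj (x y g : G) : cj (cm x y) g = cm (cj x g) (cj y g) := by
  simp [cj, cm, mul_assoc]

theorem cm_inv (x y : G) : (cm x y)⁻¹ = cm y x := by
  simp [cm, mul_assoc]

theorem cm_eq_one_iff {x y : G} : cm x y = 1 ↔ Commute x y := by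
  constructor
  · intro h
    have : y * x * cm x y = x * y := by simp [cm, mul_assoc]
    rw [h, mul_one] at this
    exact this.symm
  · intro h
    have : y * x * cm x y = x * y := by simp [cm, mul_assoc]
    rw [h.eq] at this
    simpa using this

theorem cj_of_commute {x y : G} (h : Commute x y) : cj x y = x := by
  rw [cj, mul_assoc, h.eq, ← mul_assoc, inv_mul_cancel, one_mul]

theorem commute_of_cj {x y : G} (h : cj x y = x) : Commute x y := by
  rw [← cm_eq_one_iff, cm_eq, h, inv_mul_cancel]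

theorem commute_cj {x y : G} (h : Commute x y) (g : G) : Commute (cj x g) (cj y g) := by
  rw [← cm_eq_one_iff] at h ⊢
  rw [← cm_cj, h, one_cj]

theorem commute_cj_iff {x y g : G} : Commute (cj x g) (cj y g) ↔ Commute x y := by
  constructor
  · intro h
    have := commute_cj h g⁻¹
    rwa [cj_cj_inv, cj_cj_inv] at this
  · intro h
    exact commute_cj h g

/-- `x` commutes with `y^g` iff `x^(g⁻¹)` commutes with `y` -/
theorem commute_cj_right {x y g : G} : Commute x (cj y g) ↔ Commute (cj x g⁻¹) y := by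
  have h := @commute_cj_iff G _ (cj x g⁻¹) y g
  rw [cj_inv_cj] at h
  exact h

theorem commute_cm {x a b : G} (ha : Commute x a) (hb : Commute x b) : Commute x (cm a b) := by
  unfold cm
  exact ((ha.inv_right.mul_right hb.inv_right).mul_right ha).mul_right hb

theorem commute_cj_of {x a b : G} (ha : Commute x a) (hb : Commute x b) : Commute x (cj a b) := by
  unfold cj
  exact (hb.inv_right.mul_right ha).mul_right hb

theorem Law.conj (law : Law G) (x g h : G) : ((cj x g)⁻¹ * cj x h) ^ 3 = 1 := by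
  have e : (cj x g)⁻¹ * cj x h = cj (cm x (h * g⁻¹)) g := by
    simp [cj, cm, mul_assoc]
  rw [e, ← pow_cj, law, one_cj]

/-- `A ⊥ B`: the defining relations of the Burnside group `B(2,3)` -/
structure Perp (A B : G) : Prop where
  a3 : A ^ 3 = 1
  b3 : B ^ 3 = 1
  m3 : (A * B) ^ 3 = 1
  n3 : (A⁻¹ * B) ^ 3 = 1

theorem pow3_swap {A B : G} (h : (A * B) ^ 3 = 1) : (B * A) ^ 3 = 1 := by
  have e : B * A = cj (A * B) A := by simp [cj, mul_assoc]
  rw [e, ← pow_cj, h, one_cj]

theorem Perp.symm {A B : G} (h : Perp A B) : Perp B A := by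
  refine ⟨h.b3, h.a3, pow3_swap h.m3, ?_⟩
  have := h.n3
  have e : (B⁻¹ * A) = (A⁻¹ * B)⁻¹ := by simp
  rw [e, inv_pow, this, inv_one]

theorem Perp.inv_left {A B : G} (h : Perp A B) : Perp A⁻¹ B := by
  refine ⟨by rw [inv_pow, h.a3, inv_one], h.b3, h.n3, ?_⟩
  rw [inv_inv]; exact h.m3

theorem Perp.inv_right {A B : G} (h : Perp A B) : Perp A B⁻¹ := h.symm.inv_left.symm

theorem Perp.cjg {A B : G} (h : Perp A B) (g : G) : Perp (cj A g) (cj B g) := by
  refine ⟨?_, ?_, ?_, ?_⟩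
  · rw [← pow_cj, h.a3, one_cj]
  · rw [← pow_cj, h.b3, one_cj]
  · rw [← mul_cj, ← pow_cj, h.m3, one_cj]
  · rw [← inv_cj, ← mul_cj, ← pow_cj, h.n3, one_cj]

theorem Perp.inv_left_iff {A B : G} : Perp A⁻¹ B ↔ Perp A B := by
  constructor
  · intro h
    have := h.inv_left
    rwa [inv_inv] at this
  · exact fun h => h.inv_left

theorem inv_eq_sq {A : G} (h : A ^ 3 = 1) : A⁻¹ = A * A := by
  rw [inv_eq_iff_mul_eq_one, ← mul_assoc, ← h]
  simp [pow_succ]

/-- `A` commutes with `A^B` -/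
theorem Perp.comm_cj {A B : G} (h : Perp A B) : Commute A (cj A B) := by
  -- A * B⁻¹ A B = B A⁻¹ B⁻¹ = B⁻¹ A B A
  have hb : B⁻¹ = B * B := inv_eq_sq h.b3
  have h1 : (B * A) ^ 3 = 1 := pow3_swap h.m3
  have h2 : (B⁻¹ * A) ^ 3 = 1 := h.symm.n3
  -- A B A = B⁻¹ A⁻¹ B⁻¹
  have e1 : A * B * A = B⁻¹ * A⁻¹ * B⁻¹ := by
    have : B * (A * B * A) * B * A = 1 := by
      rw [← h1]; simp [pow_succ, mul_assoc]
    have h3 : A * B * A = B⁻¹ * (B * (A * B * A) * B * A) * A⁻¹ * B⁻¹ := by group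
    rw [h3, this]; group
  have e2 : A * B⁻¹ * A = B * A⁻¹ * B := by
    have : B⁻¹ * (A * B⁻¹ * A) * B⁻¹ * A = 1 := by
      rw [← h2]; simp [pow_succ, mul_assoc]
    have h3 : A * B⁻¹ * A = B * (B⁻¹ * (A * B⁻¹ * A) * B⁻¹ * A) * A⁻¹ * B := by group
    rw [h3, this]; group
  show A * cj A B = cj A B * A
  have l : A * cj A B = B * A⁻¹ * B * B := by
    calc A * cj A B = (A * B⁻¹ * A) * B := by simp [cj, mul_assoc]
      _ = B * A⁻¹ * B * B := by rw [e2]
  have r : cj A B * A = B * A⁻¹ * B * B := by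
    calc cj A B * A = B⁻¹ * (A * B * A) := by simp [cj, mul_assoc]
      _ = B⁻¹ * (B⁻¹ * A⁻¹ * B⁻¹) := by rw [e1]
      _ = (B⁻¹ * B⁻¹) * A⁻¹ * B⁻¹ := by group
      _ = B * A⁻¹ * B * B := by
        have : B⁻¹ * B⁻¹ = B := by
          have := inv_eq_sq (A := B⁻¹) (by rw [inv_pow, h.b3, inv_one])
          rw [inv_inv] at this; exact this.symm
        rw [this, hb]; group
  rw [l, r]

theorem Perp.comm_left {A B : G} (h : Perp A B) : Commute (cm A B) A := by
  rw [cm_eq]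
  exact (Commute.refl A).inv_left.mul_left h.comm_cj.symm

theorem Perp.comm_right {A B : G} (h : Perp A B) : Commute (cm A B) B := by
  have := h.symm.comm_left
  rw [← cm_inv] at this
  exact Commute.inv_left_iff.1 this

/-- if `[A,B]` commutes with `A` then `[A⁻¹,B] = [A,B]⁻¹` -/
theorem cm_inv_left {A B : G} (h : Commute (cm A B) A) : cm A⁻¹ B = (cm A B)⁻¹ := by
  have e : cm A⁻¹ B = A * (cm A B)⁻¹ * A⁻¹ := by simp [cm, mul_assoc]
  rw [e, ← h.inv_left.eq, mul_assoc, mul_inv_cancel, mul_one]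

theorem cm_inv_right {A B : G} (h : Commute (cm A B) B) : cm A B⁻¹ = (cm A B)⁻¹ := by
  have e : cm A B⁻¹ = B * (cm A B)⁻¹ * B⁻¹ := by simp [cm, mul_assoc]
  rw [e, ← h.inv_left.eq, mul_assoc, mul_inv_cancel, mul_one]

theorem cm_mul_left (a b c : G) : cm (a * b) c = cj (cm a c) b * cm b c := by
  simp [cm, cj, mul_assoc]

theorem cm_mul_right (a b c : G) : cm a (b * c) = cm a c * cj (cm a b) c := by
  simp [cm, cj, mul_assoc]

theorem eq_one_of_sq {a : G} (h2 : a * a = 1) (h3 : a ^ 3 = 1) : a = 1 := by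
  have : a ^ 3 = a * a * a := by simp [pow_succ]
  rw [this, h2, one_mul] at h3
  exact h3

/-- Heisenberg triple: `z = [p,r]` commutes with `p` and `r` -/
structure Hs (p r z : G) : Prop where
  eq : z = cm p r
  cp : Commute z p
  cr : Commute z r

theorem Hs.swap {p r z : G} (h : Hs p r z) : Hs r p z⁻¹ := by
  refine ⟨by rw [h.eq, cm_inv], h.cr.inv_left, h.cp.inv_left⟩

theorem Hs.cjg {p r z : G} (h : Hs p r z) (g : G) : Hs (cj p g) (cj r g) (cj z g) :=
  ⟨by rw [h.eq, cm_cj], commute_cj h.cp g, commute_cj h.cr g⟩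

theorem Hs.cube {p r z : G} (law : Law G) (h : Hs p r z) : z ^ 3 = 1 := by
  rw [h.eq]; exact law _ _

/-- `z ⊥ [p,g]` for all `g` -/
theorem Hs.perp {p r z : G} (law : Law G) (h : Hs p r z) (g : G) : Perp z (cm p g) := by
  have hz : z * p * r = p * z * r := by rw [h.cp.eq]
  have e0 : cj p r = p * z := by rw [cj_eq, h.eq]
  have e1 : cj p r⁻¹ = p * z⁻¹ := by
    have : p = cj (p * z) r⁻¹ := by rw [← e0, cj_cj_inv]
    rw [mul_cj, cj_of_commute (x := z) (y := r⁻¹) h.cr.inv_right] at this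
    rw [eq_mul_inv_iff_mul_eq]; exact this.symm
  refine ⟨h.cube law, law _ _, ?_, ?_⟩
  · have e : z * cm p g = (cj p r⁻¹)⁻¹ * cj p g := by
      rw [e1, cm_eq]; group
    rw [e]; exact law.conj _ _ _
  · have e : z⁻¹ * cm p g = (cj p r)⁻¹ * cj p g := by
      rw [e0, cm_eq]; group
    rw [e]; exact law.conj _ _ _

/-- Lemma C -/
theorem Hs.lemC {p r z : G} (law : Law G) (h : Hs p r z) (g : G) :
    Commute z (cj z (cj p g)) := by
  have h1 := (h.perp law g).comm_cj
  rw [cm_eq, cj_mul, cj_of_commute (x := z) (y := p⁻¹) h.cp.inv_right] at h1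
  exact h1

theorem Hs.lemC' {p r z : G} (law : Law G) (h : Hs p r z) (g : G) :
    Commute z (cj z (cj r g)) := by
  have h1 := h.swap.lemC law g
  rw [inv_cj] at h1
  exact (Commute.inv_inv_iff).1 h1

end Pool.Agent.Lib.MP_107960_al.H44
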