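import Mathlib
import Pool.Agent.Lib.MP_107960_al.H44.Basic

set_option autoImplicit false

namespace Pool.Agent.Lib.MP_107960_al.H44

variable {G : Type*} [Group G]

/-- the conjugacy class of `z` -/
def Y (z : G) : Set G := {y | ∃ g, y = cj z g}

theorem Y_self (z : G) : z ∈ Y z := ⟨1, (cj_one z).symm⟩

theorem Y_cj {z y : G} (hy : y ∈ Y z) (g : G) : cj y g ∈ Y z := by
  obtain ⟨h, rfl⟩ := hy
  exact ⟨h * g, by rw [cj_mul]⟩

theorem Y_conj {z y y' : G} (hy : y ∈ Y z) (hy' : y' ∈ Y z) : ∃ g, cj y g = y' := by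
  obtain ⟨h, rfl⟩ := hy
  obtain ⟨h', rfl⟩ := hy'
  exact ⟨h⁻¹ * h', by rw [← cj_mul, mul_inv_cancel_left]⟩

theorem Y_Hs {p r z y : G} (h : Hs p r z) (hy : y ∈ Y z) : ∃ p' r', Hs p' r' y := by
  obtain ⟨g, rfl⟩ := hy
  exact ⟨_, _, h.cjg g⟩

theorem cj_cube {w : G} (w3 : w ^ 3 = 1) (x : G) : cj x w = w * w * x * w⁻¹ * w⁻¹ := by
  have wi : w⁻¹ = w * w := inv_eq_sq w3
  have wii : w⁻¹ * w⁻¹ = w := by
    have := inv_eq_sq (A := w⁻¹) (by rw [inv_pow, w3, inv_one])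
    rw [inv_inv] at this; exact this.symm
  rw [mul_assoc (w * w * x), wii, ← wi, cj]

/-- General principle: `(y⁻¹ w)^3 ((y w)^3)^r = 1` -/
theorem GP {q r w y : G} (law : Law G) (h : Hs q r w)
    (h0 : Commute y (cj y r)) (h1 : Commute y (cj y (r * w)))
    (h2 : Commute y (cj y (r * w⁻¹))) :
    (y⁻¹ * w) ^ 3 * cj ((y * w) ^ 3) r = 1 := by
  have w3 : w ^ 3 = 1 := h.cube law
  have wi : w⁻¹ = w * w := inv_eq_sq w3
  have wii : w⁻¹ * w⁻¹ = w := by
    have := inv_eq_sq (A := w⁻¹) (by rw [inv_pow, w3, inv_one])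
    rw [inv_inv] at this; exact this.symm
  have l := law (y * q) r
  have e : cm (y * q) r = cj (y⁻¹ * cj y r * w) q := by
    rw [mul_cj, cj_of_commute h.cp, cm_mul_left, ← h.eq, cm_eq]
  rw [e, ← pow_cj] at l
  have l' : (y⁻¹ * cj y r * w) ^ 3 = 1 := by
    apply cj_inj (y := q); rw [l, one_cj]
  -- notation
  set b := cj y r with hb
  have c1 : Commute (cj y w⁻¹) b := by
    rw [hb]
    have := commute_cj h1 w⁻¹
    rwa [← cj_mul y (r * w), mul_assoc, mul_inv_cancel, mul_one] at this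
  have c2 : Commute (cj y w) b := by
    have := commute_cj h2 w
    rwa [← cj_mul y (r * w⁻¹), mul_assoc, inv_mul_cancel, mul_one] at this
  -- b1 = w b w⁻¹ = cj b w⁻¹ commutes with cj y w = w² y w⁻² 
  have c3 : Commute (cj y w) (cj b w⁻¹) := by
    have := commute_cj h1 w
    rw [← cj_mul y (r * w), mul_assoc, ← wi] at this
    rw [hb, ← cj_mul]; exact this
  have d1 : b * cj y⁻¹ w⁻¹ = cj y⁻¹ w⁻¹ * b := by
    rw [inv_cj]; exact c1.inv_left.eq.symm
  have d2 : b * cj y⁻¹ w = cj y⁻¹ w * b := by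
    rw [inv_cj]; exact c2.inv_left.eq.symm
  have d3 : cj b w⁻¹ * cj y⁻¹ w = cj y⁻¹ w * cj b w⁻¹ := by
    rw [inv_cj]; exact c3.inv_left.eq.symm
  -- expansion of the cube
  have x1 : (y⁻¹ * b * w) ^ 3 =
      y⁻¹ * (b * cj y⁻¹ w⁻¹) * (cj b w⁻¹ * cj y⁻¹ w) * cj b w := by
    have t1 : cj y⁻¹ w = w * w * y⁻¹ * w⁻¹ * w⁻¹ := cj_cube w3 _
    have t2 : cj b w = w * w * b * w⁻¹ * w⁻¹ := cj_cube w3 _
    have t3 : (y⁻¹ * b * w) ^ 3 = y⁻¹ * (b * cj y⁻¹ w⁻¹) * (cj b w⁻¹ * (w * w * y⁻¹ * w⁻¹ * w⁻¹))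
        * (w * w * b * w⁻¹ * w⁻¹) * w ^ 3 := by
      simp [cj, pow_succ, mul_assoc]
    rw [t3, w3, mul_one, t1, t2]
  have x2 : (y⁻¹ * w) ^ 3 = y⁻¹ * cj y⁻¹ w⁻¹ * cj y⁻¹ w := by
    have t1 : cj y⁻¹ w = w * w * y⁻¹ * w⁻¹ * w⁻¹ := cj_cube w3 _
    have t3 : (y⁻¹ * w) ^ 3 = y⁻¹ * cj y⁻¹ w⁻¹ * (w * w * y⁻¹ * w⁻¹ * w⁻¹) * w ^ 3 := by
      simp [cj, pow_succ, mul_assoc]
    rw [t3, w3, mul_one, t1]
  have x3 : (b * w) ^ 3 = b * cj b w⁻¹ * cj b w := by
    have t2 : cj b w = w * w * b * w⁻¹ * w⁻¹ := cj_cube w3 _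
    have t3 : (b * w) ^ 3 = b * cj b w⁻¹ * (w * w * b * w⁻¹ * w⁻¹) * w ^ 3 := by
      simp [cj, pow_succ, mul_assoc]
    rw [t3, w3, mul_one, t2]
  have x4 : (y⁻¹ * w) ^ 3 * (b * w) ^ 3 = 1 := by
    rw [← l', x1, x2, x3, d1, d3]
    have : y⁻¹ * (cj y⁻¹ w⁻¹ * b) * (cj y⁻¹ w * cj b w⁻¹) * cj b w
        = y⁻¹ * cj y⁻¹ w⁻¹ * (b * cj y⁻¹ w) * cj b w⁻¹ * cj b w := by
      simp only [mul_assoc]
    rw [this, d2]
    simp only [mul_assoc]
  rw [pow_cj, mul_cj, cj_of_commute h.cr]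
  exact x4

/-- `P = (y w)^3`, `(y⁻¹ w)^3 = P⁻¹`, `P` commutes with `y` and `w` -/
theorem GP2 {q r w y : G} (law : Law G) (h : Hs q r w) (r3 : r ^ 3 = 1) (y3 : y ^ 3 = 1)
    (h0 : Commute y (cj y r)) (h1 : Commute y (cj y (r * w)))
    (h2 : Commute y (cj y (r * w⁻¹))) :
    (y⁻¹ * w) ^ 3 * (y * w) ^ 3 = 1 ∧ Commute ((y * w) ^ 3) y ∧ Commute ((y * w) ^ 3) w := by
  have e1 := GP law h h0 h1 h2
  have e2 := GP (y := y⁻¹) law h (by rw [inv_cj]; exact h0.inv_inv)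
    (by rw [inv_cj]; exact h1.inv_inv) (by rw [inv_cj]; exact h2.inv_inv)
  rw [inv_inv] at e2
  set P := (y * w) ^ 3 with hP
  set Q := (y⁻¹ * w) ^ 3 with hQ
  -- Q = (P^r)⁻¹, P = (Q^r)⁻¹
  have a1 : Q = (cj P r)⁻¹ := eq_inv_of_mul_eq_one_left e1
  have a2 : P = (cj Q r)⁻¹ := eq_inv_of_mul_eq_one_left e2
  have a3 : P = cj P (r * r) := by
    have : cj Q r = (cj P (r * r))⁻¹ := by rw [a1, inv_cj, cj_mul]
    rw [this, inv_inv] at a2; exact a2
  have a4 : cj P r = P := by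
    have h3 : cj P (r * r * r) = P := by
      have : r * r * r = 1 := by rw [← r3]; simp [pow_succ]
      rw [this, cj_one]
    rw [cj_mul, ← a3] at h3
    exact h3
  rw [a4] at e1 a1
  have c1 : Commute P (y * w) := by rw [hP]; exact (Commute.refl _).pow_left 3
  have c2 : Commute P (y⁻¹ * w) := by
    have : Commute Q (y⁻¹ * w) := by rw [hQ]; exact (Commute.refl _).pow_left 3
    rw [a1] at this; exact Commute.inv_left_iff.1 this
  have c3 : Commute P (y * y) := by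
    have := c1.mul_right c2.inv_right
    have e : y * w * (y⁻¹ * w)⁻¹ = y * y := by group
    rwa [e] at this
  have c4 : Commute P y := by
    have := inv_eq_sq y3
    rw [← this] at c3; exact Commute.inv_right_iff.1 c3
  have c5 : Commute P w := by
    have := c4.inv_right.mul_right c1
    have e : y⁻¹ * (y * w) = w := by group
    rwa [e] at this
  exact ⟨e1, c4, c5⟩

/-- cubes as products of conjugates -/
theorem cube_eq {y w : G} (y3 : y ^ 3 = 1) :
    (y * w) ^ 3 = cj w y⁻¹ * cj w y * w ∧ (y⁻¹ * w) ^ 3 = cj w y * cj w y⁻¹ * w := by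
  have yi : y⁻¹ = y * y := inv_eq_sq y3
  have y4 : y * y * (y * y) = y := by
    have : y * y * (y * y) = y ^ 3 * y := by simp [pow_succ, mul_assoc]
    rw [this, y3, one_mul]
  have yii : y⁻¹ * y⁻¹ = y := by rw [yi, y4]
  constructor
  · have : (y * w) ^ 3 = y * w * y * w * y * w := by simp [pow_succ, mul_assoc]
    rw [this]
    have e : cj w y⁻¹ * cj w y * w = y * w * (y⁻¹ * y⁻¹) * w * y * w := by
      simp [cj, mul_assoc]
    rw [e, yii]
  · have : (y⁻¹ * w) ^ 3 = y⁻¹ * w * y⁻¹ * w * y⁻¹ * w := by simp [pow_succ, mul_assoc]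
    rw [this]
    have e : cj w y * cj w y⁻¹ * w = y⁻¹ * w * (y * y) * w * y⁻¹ * w := by
      simp [cj, mul_assoc]
    rw [e, ← yi]

theorem comm_cj_inv {y w : G} (y3 : y ^ 3 = 1) (h : Commute w (cj w y)) :
    Commute (cj w y) (cj w y⁻¹) := by
  have := commute_cj h y
  rw [← cj_mul, ← inv_eq_sq y3] at this
  exact this

/-- conclusion from `w` commuting with `w^y` -/
theorem perp_of {y w : G} (y3 : y ^ 3 = 1) (w3 : w ^ 3 = 1)
    (h : (y⁻¹ * w) ^ 3 * (y * w) ^ 3 = 1) (hc : Commute w (cj w y)) : Perp y w := by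
  obtain ⟨e1, e2⟩ := cube_eq (w := w) y3
  have c2 := comm_cj_inv y3 hc
  have c1 : Commute w (cj w y⁻¹) := by
    have := commute_cj hc y⁻¹
    rw [cj_cj_inv] at this; exact this.symm
  have e3 : (y⁻¹ * w) ^ 3 = (y * w) ^ 3 := by rw [e1, e2, c2.eq]
  rw [e3] at h
  have p3 : ((y * w) ^ 3) ^ 3 = 1 := by
    rw [e1]
    have : Commute (cj w y⁻¹ * cj w y) w := (c1.symm.mul_left hc.symm)
    rw [this.mul_pow, c2.symm.mul_pow, ← pow_cj, ← pow_cj, w3, one_cj, one_cj, one_mul, one_mul]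
  have p1 := eq_one_of_sq h p3
  exact ⟨y3, w3, p1, by rw [e3, p1]⟩

/-- Theorem 1 : `z` is a left 3-Engel element -/
theorem thm1_self {p r z y : G} (law : Law G) (h : Hs p r z) (hy : y ∈ Y z) : Perp z y := by
  obtain ⟨g, rfl⟩ := hy
  have z3 := h.cube law
  have y3 : (cj z g) ^ 3 = 1 := by rw [← pow_cj, z3, one_cj]
  have hc : ∀ r', Hs p r' z → Commute (cj z g) (cj (cj z g) r') := by
    intro r' h'
    have := h'.lemC' law g⁻¹
    have h2 := commute_cj this g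
    rw [← cj_mul z (cj r' g⁻¹)] at h2
    have e : cj r' g⁻¹ * g = g * r' := by simp [cj, mul_assoc]
    rw [e, cj_mul] at h2
    exact h2
  have hp : ∀ s : G, Commute s z → Commute s p → Hs p (r * s) z := by
    intro s hs hsp
    refine ⟨?_, h.cp, h.cr.mul_right hs.symm⟩
    rw [cm_mul_right, ← h.eq, cj_of_commute hs.symm, cm_eq_one_iff.2 hsp.symm, one_mul]
  have e := GP (y := cj z g) law h (hc r h)
    (hc _ (hp z (Commute.refl z) h.cp)) (hc _ (hp z⁻¹ (Commute.refl z).inv_left h.cp.inv_left))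
  have e2 : ((cj z g)⁻¹ * z) ^ 3 = 1 := by
    have := law.conj z g 1
    rwa [cj_one] at this
  rw [e2, one_mul] at e
  have e3 : (cj z g * z) ^ 3 = 1 := by
    apply cj_inj (y := r); rw [e, one_cj]
  exact (Perp.mk y3 z3 e3 e2).symm

theorem thm1 {p r z y y' : G} (law : Law G) (h : Hs p r z) (hy : y ∈ Y z) (hy' : y' ∈ Y z) :
    Perp y y' := by
  obtain ⟨g, rfl⟩ := hy
  obtain ⟨g', rfl⟩ := hy'
  have := thm1_self law h (y := cj z (g' * g⁻¹)) ⟨_, rfl⟩
  have h2 := this.cjg g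
  rw [← cj_mul, inv_mul_cancel_right] at h2
  exact h2

/-- left-normed commutators in elements of the class `Y z` -/
inductive LL (z : G) : G → Prop
  | base {y : G} (hy : y ∈ Y z) : LL z y
  | step {w y : G} (hw : LL z w) (hy : y ∈ Y z) : LL z (cm w y)

theorem LL.cjg {z w : G} (hw : LL z w) (g : G) : LL z (cj w g) := by
  induction hw with
  | base hy => exact LL.base (Y_cj hy g)
  | step hw hy ih => rw [cm_cj]; exact LL.step ih (Y_cj hy g)

theorem LL.perpY {p r z w : G} (law : Law G) (h : Hs p r z) (hw : LL z w) :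
    ∀ {y : G}, y ∈ Y z → Perp w y := by
  induction hw with
  | base hy => intro y hy'; exact thm1 law h hy hy'
  | step hw hy ih =>
    rename_i u y1
    intro y hy'
    have hu := ih hy
    have H : Hs u y1 (cm u y1) := ⟨rfl, hu.comm_left, hu.comm_right⟩
    have y3 : y ^ 3 = 1 := (thm1 law h hy' hy').a3
    have w3 := H.cube law
    -- y1 * w^j is in Y
    have k1 : y1 * cm u y1 = cj y1 u⁻¹ := by
      have : y1 = cj (y1 * cm u y1) u := by
        rw [mul_cj, cj_of_commute H.cp, cj_eq y1 u, ← cm_inv u y1]; group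
      conv_rhs => rw [this, cj_cj_inv]
    have k2 : y1 * (cm u y1)⁻¹ = cj y1 u := by
      rw [cj_eq, cm_inv]
    have c : ∀ {x : G}, x ∈ Y z → Commute y (cj y x) := fun hx => (thm1 law h hy' hx).comm_cj
    have g := GP2 (y := y) law H (hu.b3) y3 (c hy) (by rw [k1]; exact c (Y_cj hy _))
      (by rw [k2]; exact c (Y_cj hy _))
    obtain ⟨g', hg'⟩ := Y_conj hy hy'
    have hc := H.lemC' law g'
    rw [hg'] at hc
    exact (perp_of y3 w3 g.1 hc).symm

theorem LL.cube {p r z w : G} (law : Law G) (h : Hs p r z) (hw : LL z w) : w ^ 3 = 1 :=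
  (hw.perpY law h (Y_self z)).a3

/-- Lemma D -/
theorem lemD {q r w q' r' w' : G} (law : Law G) (h : Hs q r w) (h' : Hs q' r' w')
    (r3 : r ^ 3 = 1) (r3' : r' ^ 3 = 1)
    (a0 : Commute w' (cj w' r)) (a1 : Commute w' (cj w' (r * w)))
    (a2 : Commute w' (cj w' (r * w⁻¹)))
    (b0 : Commute w (cj w r')) (b1 : Commute w (cj w (r' * w')))
    (b2 : Commute w (cj w (r' * w'⁻¹))) : Perp w w' := by
  have w3 := h.cube law
  have w3' := h'.cube law
  obtain ⟨e1, c1, c2⟩ := GP2 (y := w') law h r3 w3' a0 a1 a2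
  obtain ⟨e2, d1, d2⟩ := GP2 (y := w) law h' r3' w3 b0 b1 b2
  -- (w w')^3 = (w' w)^3
  have s1 : (w * w') ^ 3 = (w' * w) ^ 3 := by
    have : w * w' = cj (w' * w) w⁻¹ := by simp [cj, mul_assoc]
    rw [this, ← pow_cj, cj_of_commute c2.inv_right]
  have s2 : (w⁻¹ * w') ^ 3 = ((w'⁻¹ * w) ^ 3)⁻¹ := by
    rw [← inv_pow]; congr 1; group
  rw [s1, s2] at e2
  -- Q P = 1, Q⁻¹ P = 1
  have s3 : (w'⁻¹ * w) ^ 3 = (w' * w) ^ 3 := by
    have := eq_inv_of_mul_eq_one_left e2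
    exact (inv_inj.1 (by rw [this]))
  obtain ⟨f1, f2⟩ := cube_eq (w := w) w3'
  have s4 : Commute w (cj w w') := by
    have h5 : cj w w' * cj w w'⁻¹ = cj w w'⁻¹ * cj w w' := by
      have : cj w w' * cj w w'⁻¹ * w = cj w w'⁻¹ * cj w w' * w := by rw [← f1, ← f2, s3]
      exact mul_right_cancel this
    have h6 := commute_cj (x := cj w w') (y := cj w w'⁻¹) h5 w'
    rw [cj_inv_cj, ← cj_mul, ← inv_eq_sq w3'] at h6
    have h7 := commute_cj h6 w'
    rw [cj_inv_cj] at h7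
    exact h7
  exact (perp_of w3' w3 e1 s4).symm

theorem LL.perp {p r z w w' : G} (law : Law G) (h : Hs p r z) (hw : LL z w) (hw' : LL z w') :
    Perp w w' := by
  cases hw with
  | base hy => exact (hw'.perpY law h hy).symm
  | step hu hy =>
    cases hw' with
    | base hy' => exact (LL.step hu hy).perpY law h hy'
    | step hu' hy' =>
      rename_i u y u' y'
      have key : ∀ {u y : G}, LL z u → y ∈ Y z → Hs u y (cm u y) ∧ y * cm u y ∈ Y z ∧
          y * (cm u y)⁻¹ ∈ Y z := by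
        intro u y hu hy
        have hp := hu.perpY law h hy
        have H : Hs u y (cm u y) := ⟨rfl, hp.comm_left, hp.comm_right⟩
        refine ⟨H, ?_, ?_⟩
        · have k1 : y * cm u y = cj y u⁻¹ := by
            have : y = cj (y * cm u y) u := by
              rw [mul_cj, cj_of_commute H.cp, cj_eq y u, ← cm_inv u y]; group
            conv_rhs => rw [this, cj_cj_inv]
          rw [k1]; exact Y_cj hy _
        · have k2 : y * (cm u y)⁻¹ = cj y u := by rw [cj_eq, cm_inv]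
          rw [k2]; exact Y_cj hy _
      obtain ⟨H, m1, m2⟩ := key hu hy
      obtain ⟨H', m1', m2'⟩ := key hu' hy'
      have c : ∀ {x w : G}, x ∈ Y z → LL z w → Commute w (cj w x) :=
        fun hx hw => (hw.perpY law h hx).comm_cj
      have L := LL.step hu hy
      have L' := LL.step hu' hy'
      exact lemD law H H' (hu.perpY law h hy).b3 (hu'.perpY law h hy').b3
        (c hy L') (c m1 L') (c m2 L') (c hy' L) (c m1' L) (c m2' L)

end Pool.Agent.Lib.MP_107960_al.H44
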