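import Mathlib
import Pool.Agent.Lib.MP_107960_al.H44.Sandwich

set_option autoImplicit false

namespace Pool.Agent.Lib.MP_107960_al.H44

variable {G : Type*} [Group G]

/-- the hypotheses of Lemma E -/
structure EC (y w b : G) : Prop where
  yw : Perp y w
  yb : Perp y b
  ub : Perp (cm y w) b
  uv : Perp (cm y w) (cm y b)
  ym : Perp y (cm (cm y w) b)

/-- `[y^b⁻¹, u] = ε`, `[y^b,u] = ε⁻¹` for `u` commuting with `y` -/
theorem eps_aux {y b u : G} (yb : Perp y b) (hyu : Commute y u) (uv : Perp u (cm y b)) :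
    cm (cj y b⁻¹) u = cm u (cm y b) ∧ cm (cj y b) u = (cm u (cm y b))⁻¹ := by
  set v := cm y b with hv
  have vb : Commute v b := yb.comm_right
  have yv : Commute y v := yb.comm_left.symm
  have e1 : cj y b = y * v := cj_eq y b
  have e2 : cj y b⁻¹ = y * v⁻¹ := by
    have : y = cj (y * v) b⁻¹ := by rw [← e1, cj_cj_inv]
    rw [mul_cj, cj_of_commute vb.inv_right] at this
    rw [eq_mul_inv_iff_mul_eq]; exact this.symm
  constructor
  · rw [e2, cm_mul_left, cm_eq_one_iff.2 hyu, one_cj, one_mul,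
      cm_inv_left (uv.symm.comm_left), cm_inv]
  · rw [e1, cm_mul_left, cm_eq_one_iff.2 hyu, one_cj, one_mul, cm_inv]

theorem EC.comm_b {y w b : G} (b3 : b ^ 3 = 1) (h : EC y w b) :
    Commute (cm (cm y w) (cm y b)) b := by
  set u := cm y w with hu
  set v := cm y b with hv
  set e := cm u v with he
  have hyu : Commute y u := h.yw.comm_left.symm
  obtain ⟨a1, a2⟩ := eps_aux h.yb hyu h.uv
  -- e^b = [y, u^b]
  have b1 : cj e b = cm y (cj u b) := by
    rw [he, hv, ← a1, cm_cj, cj_inv_cj]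
  have b2 : cj e⁻¹ b⁻¹ = cm y (cj u b⁻¹) := by
    rw [he, hv, ← a2, cm_cj, cj_cj_inv]
  set m := cm u b with hm
  have um : Commute u m := h.ub.comm_left.symm
  have mb : Commute m b := h.ub.comm_right
  have c1 : cj u b = u * m := cj_eq u b
  have c2 : cj u b⁻¹ = u * m⁻¹ := by
    have : u = cj (u * m) b⁻¹ := by rw [← c1, cj_cj_inv]
    rw [mul_cj, cj_of_commute mb.inv_right] at this
    rw [eq_mul_inv_iff_mul_eq]; exact this.symm
  rw [c1, cm_mul_right, cm_eq_one_iff.2 hyu, one_cj, mul_one] at b1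
  rw [c2, cm_mul_right, cm_eq_one_iff.2 hyu, one_cj, mul_one, cm_inv_right h.ym.comm_right,
    inv_cj, inv_inj, ← b1] at b2
  -- cj e b⁻¹ = cj e b
  have b3' : b⁻¹ = b * b := inv_eq_sq b3
  have := commute_of_cj (x := e) (y := b * b) (by
    have h1 : cj (cj e b⁻¹) b = cj (cj e b) b := by rw [b2]
    rw [cj_inv_cj, ← cj_mul] at h1
    exact h1.symm)
  rw [← b3'] at this
  exact Commute.inv_right_iff.1 this

theorem EC.step {y w w1 b : G} (b3 : b ^ 3 = 1) (h : EC y w b) (h1 : EC y w1 b)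
    (hw : cj w1 b = w) :
    (cm (cm y w1) (cm y b))⁻¹ = cj (cm (cm y w) (cm y b)) w1⁻¹ ∧
    (cm (cm y w1) (cm y b))⁻¹ = cj (cm (cm y w) (cm y b)) w⁻¹ := by
  have cb := h.comm_b b3
  have cb1 := h1.comm_b b3
  set u := cm y w with hu
  set v := cm y b with hv
  set u1 := cm y w1 with hu1
  set e := cm u v with he
  set e1 := cm u1 v with he1
  have hyu : Commute y u := h.yw.comm_left.symm
  have hyu1 : Commute y u1 := h1.yw.comm_left.symm
  have hyv : Commute y v := h.yb.comm_left.symm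
  have key : ∀ {s t : G}, Commute y s → Commute y t → cm (y * s) (y * t) = cm s t := by
    intro s t hs ht
    rw [cm_mul_left, cm_mul_right, cm_mul_right, cm_eq_one_iff.2 (Commute.refl y), one_cj,
      mul_one, cm_eq_one_iff.2 ht, one_cj, one_mul, cm_eq_one_iff.2 hs.symm, one_cj, mul_one]
  -- ε = [y^w, y^b]
  have s1 : cm (cj y w) (cj y b) = e := by
    rw [cj_eq y w, cj_eq y b, ← hu, ← hv, key hyu hyv]
  have s2 : cm (cj y (w * b⁻¹)) y = e := by
    have := congrArg (fun x => cj x b⁻¹) s1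
    rw [cm_cj, cj_cj_inv, cj_of_commute cb.inv_right, ← cj_mul] at this
    exact this
  have s3 : w * b⁻¹ = b⁻¹ * w1 := by rw [← hw]; simp [cj, mul_assoc]
  have s4 : cm (cj y b⁻¹) (cj y w1⁻¹) = cj e w1⁻¹ := by
    rw [← s2, s3, cm_cj, cj_mul, cj_cj_inv]
  have f1 : cj y b⁻¹ = y * v⁻¹ := by
    rw [cj_eq, cm_inv_right h.yb.comm_right]
  have f2 : cj y w1⁻¹ = y * u1⁻¹ := by
    rw [cj_eq, cm_inv_right h1.yw.comm_right]
  have s5 : cj e w1⁻¹ = e1⁻¹ := by
    rw [← s4, f1, f2, key hyv.inv_right hyu1.inv_right]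
    have p := h1.uv
    rw [cm_inv_left (by
        have := (p.symm.inv_right).comm_left
        exact this),
      cm_inv_right p.symm.comm_right, inv_inv, he1, cm_inv]
  refine ⟨s5.symm, ?_⟩
  have := congrArg (fun x => cj x b) s5
  have t1 : cj e1⁻¹ b = e1⁻¹ := cj_of_commute cb1.inv_left
  have t2 : cj (cj e w1⁻¹) b = cj e w⁻¹ := by
    have : w1⁻¹ * b = b * w⁻¹ := by rw [← hw]; simp [cj, mul_assoc]
    rw [← cj_mul, this, cj_mul, cj_of_commute cb]
  rw [t1, t2] at this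
  exact this.symm

/-- Lemma E -/
theorem lemE {y w b : G} (law : Law G) (b3 : b ^ 3 = 1) (w3 : w ^ 3 = 1)
    (h0 : EC y w b) (h1 : EC y (cj w b⁻¹) b) (h2 : EC y (cj w b) b) :
    Commute (cm y w) (cm y b) := by
  rw [← cm_eq_one_iff]
  have g0 := h0.step b3 h1 (cj_inv_cj w b)
  have g1 := h1.step (w1 := cj w b) b3 h2 (by
    rw [← cj_mul, inv_eq_sq b3])
  have g2 := h2.step (w1 := w) b3 h0 rfl
  set e0 := cm (cm y w) (cm y b) with he0
  set e1 := cm (cm y (cj w b⁻¹)) (cm y b) with he1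
  set e2 := cm (cm y (cj w b)) (cm y b) with he2
  set w1 := cj w b⁻¹ with hw1
  have w13 : w1 ^ 3 = 1 := by rw [hw1, ← pow_cj, w3, one_cj]
  -- e2⁻¹ = e1^(w1⁻¹), e1⁻¹ = e0^(w1⁻¹)
  have k1 : e2 = cj e0 w1 := by
    have a : e2⁻¹ = cj e1 w1⁻¹ := g1.2
    have b' : e1⁻¹ = cj e0 w1⁻¹ := g0.1
    have c : e1 = (cj e0 w1⁻¹)⁻¹ := by rw [← b', inv_inv]
    rw [c, inv_cj, inv_inj, ← cj_mul] at a
    have d : w1⁻¹ * w1⁻¹ = w1 := by
      have := inv_eq_sq (A := w1⁻¹) (by rw [inv_pow, w13, inv_one])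
      rw [inv_inv] at this; exact this.symm
    rw [a, d]
  have k2 : e2 = (cj e0 w)⁻¹ := by
    have a : e0⁻¹ = cj e2 w⁻¹ := g2.1
    have : cj e0⁻¹ w = e2 := by rw [a, cj_inv_cj]
    rw [← this, inv_cj]
  have k3 : cj e0 (w1 * w⁻¹) = e0⁻¹ := by
    rw [cj_mul, ← k1, k2, ← inv_cj, cj_cj_inv]
  have k4 : (w1 * w⁻¹) ^ 3 = 1 := by
    have := law.conj w⁻¹ b⁻¹ 1
    rw [cj_one, inv_cj, inv_inv] at this
    exact this
  have k5 : cj e0 ((w1 * w⁻¹) * (w1 * w⁻¹) * (w1 * w⁻¹)) = e0⁻¹ := by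
    rw [cj_mul e0 (w1 * w⁻¹ * (w1 * w⁻¹)), cj_mul e0 (w1 * w⁻¹) (w1 * w⁻¹), k3, inv_cj, k3,
      inv_inv, k3]
  have k6 : (w1 * w⁻¹) * (w1 * w⁻¹) * (w1 * w⁻¹) = 1 := by
    rw [← k4]; simp [pow_succ]
  rw [k6, cj_one] at k5
  have e03 : e0 ^ 3 = 1 := law _ _
  apply eq_one_of_sq _ e03
  nth_rewrite 1 [k5]
  rw [inv_mul_cancel]

section
variable {p r z : G}

/-- `y, b ∈ Y`, `w ∈ L` -/
theorem EC_one (law : Law G) (h : Hs p r z) {y w b : G} (hy : y ∈ Y z) (hw : LL z w)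
    (hb : b ∈ Y z) : EC y w b := by
  have Ly : LL z y := LL.base hy
  have Lb : LL z b := LL.base hb
  have Lwy : LL z (cm w y) := LL.step hw hy
  have Lby : LL z (cm b y) := LL.step Lb hy
  have e1 : cm y w = (cm w y)⁻¹ := (cm_inv w y).symm
  have e2 : cm y b = (cm b y)⁻¹ := (cm_inv b y).symm
  have pb := Lwy.perpY law h hb
  have e3 : cm (cm w y)⁻¹ b = (cm (cm w y) b)⁻¹ := cm_inv_left pb.comm_left
  refine ⟨Ly.perp law h hw, Ly.perp law h Lb, ?_, ?_, ?_⟩
  · rw [e1]; exact pb.inv_left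
  · rw [e1, e2]; exact (Lwy.perp law h Lby).inv_left.inv_right
  · rw [e1, e3]; exact (Ly.perp law h (LL.step Lwy hb)).inv_right

/-- `y ∈ L`, `w, b ∈ Y` -/
theorem EC_two (law : Law G) (h : Hs p r z) {y w b : G} (hy : LL z y) (hw : w ∈ Y z)
    (hb : b ∈ Y z) : EC y w b := by
  have Lw : LL z w := LL.base hw
  have Lb : LL z b := LL.base hb
  have Lyw : LL z (cm y w) := LL.step hy hw
  have Lyb : LL z (cm y b) := LL.step hy hb
  exact ⟨hy.perp law h Lw, hy.perp law h Lb, Lyw.perp law h Lb, Lyw.perp law h Lyb,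
    hy.perp law h (LL.step Lyw hb)⟩

theorem E1 (law : Law G) (h : Hs p r z) {y w b : G} (hy : y ∈ Y z) (hw : LL z w)
    (hb : b ∈ Y z) : Commute (cm y w) (cm y b) :=
  lemE law (LL.cube law h (LL.base hb)) (LL.cube law h hw) (EC_one law h hy hw hb)
    (EC_one law h hy (hw.cjg _) hb) (EC_one law h hy (hw.cjg _) hb)

theorem E2 (law : Law G) (h : Hs p r z) {y w b : G} (hy : LL z y) (hw : w ∈ Y z)
    (hb : b ∈ Y z) : Commute (cm y w) (cm y b) :=
  lemE law (LL.cube law h (LL.base hb)) (LL.cube law h (LL.base hw)) (EC_two law h hy hw hb)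
    (EC_two law h hy (Y_cj hw _) hb) (EC_two law h hy (Y_cj hw _) hb)

/-- consequence: `y` commutes with `u^b`, `u = [y,w]` -/
theorem comm_of_eps {y w b : G} (h : EC y w b) (he : Commute (cm y w) (cm y b)) :
    Commute y (cj (cm y w) b) := by
  have hyu : Commute y (cm y w) := h.yw.comm_left.symm
  have a1 := (eps_aux h.yb hyu h.uv).1
  rw [cm_eq_one_iff.2 he, cm_eq_one_iff] at a1
  have := commute_cj a1 b
  rwa [cj_inv_cj] at this

/-- Lemma T: `[w,y,b]` commutes with `w, y, b` for `w ∈ L`, `y, b ∈ Y` -/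
theorem lemT (law : Law G) (h : Hs p r z) {w y b : G} (hw : LL z w) (hy : y ∈ Y z)
    (hb : b ∈ Y z) :
    Commute (cm (cm w y) b) w ∧ Commute (cm (cm w y) b) y ∧ Commute (cm (cm w y) b) b := by
  have Lwy : LL z (cm w y) := LL.step hw hy
  have pb := Lwy.perpY law h hb
  have pwy := hw.perpY law h hy
  refine ⟨?_, ?_, pb.comm_right⟩
  · -- w with [w,y]^b
    have e := comm_of_eps (EC_two law h hw hy hb) (E2 law h hw hy hb)
    rw [cm_eq (cm w y) b]
    exact (Commute.mul_left (pwy.comm_left.inv_left) e.symm)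
  · have e := comm_of_eps (EC_one law h hy hw hb) (E1 law h hy hw hb)
    have e1 : cm y w = (cm w y)⁻¹ := (cm_inv w y).symm
    rw [e1, inv_cj] at e
    have e' : Commute y (cj (cm w y) b) := Commute.inv_right_iff.1 e
    rw [cm_eq (cm w y) b]
    exact Commute.mul_left (pwy.comm_right.inv_left) e'.symm

end

end Pool.Agent.Lib.MP_107960_al.H44
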