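import Mathlib
import Pool.Agent.Lib.MP_107960_al.H44.LemmaE

set_option autoImplicit false

namespace Pool.Agent.Lib.MP_107960_al.H44

variable {G : Type*} [Group G]

/-- `(X m)^3 = X^3 = 1` gives `m^(X⁻¹) m^X m = 1` -/
theorem cube_rel {X m : G} (h1 : X ^ 3 = 1) (h2 : (X * m) ^ 3 = 1) :
    cj m X⁻¹ * cj m X * m = 1 := by
  rw [← (cube_eq (w := m) h1).1]; exact h2

/-- the set of hypotheses of the key computation -/
structure KH (m y b v v' u t p q r p' : G) : Prop where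
  hu : u = cm m y
  ht : t = cm m v
  hp : p = cm u v
  hq : q = cm t y
  hr : r = cm u v'
  hp' : p' = cm p v'
  mb : Commute m b
  mv' : Commute m v'
  m3 : m ^ 3 = 1
  mu : Commute m u
  mt : Commute m t
  ut : Commute u t
  uy : Commute u y
  tv : Commute t v
  qm : Commute q m
  qu : Commute q u
  qt : Commute q t
  tv' : Commute t v'
  ur : Commute u r
  up : Commute u p
  rp : Commute r p
  pv : Commute p v
  rv' : Commute r v'
  p'v' : Commute p' v'
  p'u : Commute p' u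
  p'r : Commute p' r
  p'p : Commute p' p
  u3 : u ^ 3 = 1
  p'3 : p' ^ 3 = 1

theorem KH.key {m y b v v' u t p q r p' : G} (h : KH m y b v v' u t p q r p')
    (hX : (y⁻¹ * v⁻¹ * v' * b) ^ 3 = 1) (hXm : (y⁻¹ * v⁻¹ * v' * b * m) ^ 3 = 1)
    (hZ : (y⁻¹ * v * v'⁻¹ * b) ^ 3 = 1) (hZm : (y⁻¹ * v * v'⁻¹ * b * m⁻¹) ^ 3 = 1) :
    cj u b⁻¹ = u * p'⁻¹ := by
  obtain ⟨hu, ht, hp, hq, hr, hp', mb, mv', m3, mu, mt, ut, uy, tv, qm, qu, qt, tv', ur, up, rp,
    pv, rv', p'v', p'u, p'r, p'p, u3, p'3⟩ := h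
  have m_y : cj m y = m * u := by rw [cj_eq, hu]
  have m_v : cj m v = m * t := by rw [cj_eq, ht]
  have u_v : cj u v = u * p := by rw [cj_eq, hp]
  have t_y : cj t y = t * q := by rw [cj_eq, hq]
  have u_v' : cj u v' = u * r := by rw [cj_eq, hr]
  have p_v' : cj p v' = p * p' := by rw [cj_eq, hp']
  have m_yi : cj m y⁻¹ = m * u⁻¹ := by
    have : m = cj (m * u) y⁻¹ := by rw [← m_y, cj_cj_inv]
    rw [mul_cj, cj_of_commute uy.inv_right] at this
    rw [eq_mul_inv_iff_mul_eq]; exact this.symm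
  have m_vi : cj m v⁻¹ = m * t⁻¹ := by
    have : m = cj (m * t) v⁻¹ := by rw [← m_v, cj_cj_inv]
    rw [mul_cj, cj_of_commute tv.inv_right] at this
    rw [eq_mul_inv_iff_mul_eq]; exact this.symm
  have u_vi : cj u v⁻¹ = u * p⁻¹ := by
    have : u = cj (u * p) v⁻¹ := by rw [← u_v, cj_cj_inv]
    rw [mul_cj, cj_of_commute pv.inv_right] at this
    rw [eq_mul_inv_iff_mul_eq]; exact this.symm
  have u_v'i : cj u v'⁻¹ = u * r⁻¹ := by
    have : u = cj (u * r) v'⁻¹ := by rw [← u_v', cj_cj_inv]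
    rw [mul_cj, cj_of_commute rv'.inv_right] at this
    rw [eq_mul_inv_iff_mul_eq]; exact this.symm
  have p_v'i : cj p v'⁻¹ = p * p'⁻¹ := by
    have : p = cj (p * p') v'⁻¹ := by rw [← p_v', cj_cj_inv]
    rw [mul_cj, cj_of_commute p'v'.inv_right] at this
    rw [eq_mul_inv_iff_mul_eq]; exact this.symm
  -- first relation
  have J := cube_rel hX hXm
  have J1 : cj m (y⁻¹ * v⁻¹ * v' * b)⁻¹ = m * u * (t * q) := by
    have e : (y⁻¹ * v⁻¹ * v' * b)⁻¹ = b⁻¹ * (v'⁻¹ * (v * y)) := by group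
    rw [e, cj_mul, cj_of_commute mb.inv_right, cj_mul, cj_of_commute mv'.inv_right, cj_mul, m_v,
      mul_cj, m_y, t_y]
  have J2 : cj m (y⁻¹ * v⁻¹ * v' * b) = m * cj (t⁻¹ * ((u * r)⁻¹ * (p * p'))) b := by
    have z1 : cj m (y⁻¹ * v⁻¹) = m * t⁻¹ * (u * p⁻¹)⁻¹ := by
      rw [cj_mul, m_yi, mul_cj, m_vi, inv_cj, u_vi]
    have z2 : cj (u * p⁻¹)⁻¹ v' = (u * r)⁻¹ * (p * p') := by
      rw [inv_cj, mul_cj, inv_cj, u_v', p_v', mul_inv_rev, inv_inv]
      have : Commute (p * p') (u * r)⁻¹ :=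
        ((up.symm.mul_left p'u).mul_right (rp.symm.mul_left p'r)).inv_right
      exact this.eq
    have z3 : cj m (y⁻¹ * v⁻¹ * v') = m * (t⁻¹ * ((u * r)⁻¹ * (p * p'))) := by
      rw [cj_mul, z1, mul_cj, mul_cj, z2, inv_cj, cj_of_commute tv',
        cj_of_commute mv', mul_assoc]
    rw [cj_mul, z3, mul_cj, cj_of_commute mb]
  rw [J1, J2] at J
  -- second relation
  have K := cube_rel hZ hZm
  have K1 : cj m⁻¹ (y⁻¹ * v * v'⁻¹ * b)⁻¹ = (m * u * (t * q)⁻¹)⁻¹ := by
    have e : (y⁻¹ * v * v'⁻¹ * b)⁻¹ = b⁻¹ * (v' * (v⁻¹ * y)) := by group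
    rw [inv_cj, inv_inj, e, cj_mul, cj_of_commute mb.inv_right, cj_mul, cj_of_commute mv',
      cj_mul, m_vi, mul_cj, m_y, inv_cj, t_y]
  have K2 : cj m⁻¹ (y⁻¹ * v * v'⁻¹ * b) = (m * cj (t * (u * r⁻¹ * (p * p'⁻¹))⁻¹) b)⁻¹ := by
    have z1 : cj m (y⁻¹ * v) = m * t * (u * p)⁻¹ := by
      rw [cj_mul, m_yi, mul_cj, m_v, inv_cj, u_v]
    have z2 : cj (u * p) v'⁻¹ = u * r⁻¹ * (p * p'⁻¹) := by rw [mul_cj, u_v'i, p_v'i]
    have z3 : cj m (y⁻¹ * v * v'⁻¹) = m * (t * (u * r⁻¹ * (p * p'⁻¹))⁻¹) := by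
      rw [cj_mul, z1, mul_cj, mul_cj, inv_cj, z2, cj_of_commute tv'.inv_right,
        cj_of_commute mv'.inv_right, mul_assoc]
    rw [inv_cj, inv_inj, cj_mul, z3, mul_cj, cj_of_commute mb]
  rw [K1, K2] at K
  set s1 := (u * r)⁻¹ * (p * p') with hs1
  set s2 := u * r⁻¹ * (p * p'⁻¹) with hs2
  set A := cj (t⁻¹ * s1) b with hA
  set B := cj (t * s2⁻¹) b with hB
  have m3' : m * m * m = 1 := by rw [← m3]; simp [pow_succ]
  have cm1 : Commute m (u * (t * q)) := mu.mul_right (mt.mul_right qm.symm)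
  have cm2 : Commute m (u * (t * q)⁻¹) := mu.mul_right (mt.mul_right qm.symm).inv_right
  -- A = (u t q)⁻¹
  have A1 : A = (u * (t * q))⁻¹ := by
    have e1 : m * u * (t * q) * (m * A) * m = m * ((u * (t * q)) * m * A) * m := by group
    rw [e1, ← cm1.eq] at J
    have e2 : m * (m * (u * (t * q)) * A) * m = (m * m) * (u * (t * q) * A) * m := by group
    rw [e2] at J
    have e3 : (u * (t * q)) * A = (m * m)⁻¹ * m⁻¹ := by
      rw [eq_inv_mul_iff_mul_eq, eq_inv_iff_mul_eq_one]; exact J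
    have e4 : (m * m)⁻¹ * m⁻¹ = 1 := by
      rw [← mul_inv_rev, ← mul_assoc, m3', inv_one]
    rw [e4] at e3
    exact eq_inv_of_mul_eq_one_right e3
  have B1 : B = (u * (t * q)⁻¹)⁻¹ := by
    -- (m u (tq)⁻¹)⁻¹ (m B)⁻¹ m⁻¹ = 1 
    have e1 : m * (m * B) * (m * u * (t * q)⁻¹) = 1 := by
      have : (m * (m * B) * (m * u * (t * q)⁻¹))⁻¹
          = (m * u * (t * q)⁻¹)⁻¹ * (m * B)⁻¹ * m⁻¹ := by group
      rw [← inv_eq_one, this]; exact K
    have e2 : m * (m * B) * (m * u * (t * q)⁻¹) = (m * m) * B * (m * (u * (t * q)⁻¹)) := by group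
    rw [e2, cm2.eq] at e1
    have e3 : B * (u * (t * q)⁻¹) = (m * m)⁻¹ * m⁻¹ := by
      rw [eq_inv_mul_iff_mul_eq, eq_inv_iff_mul_eq_one, ← e1]; group
    have e4 : (m * m)⁻¹ * m⁻¹ = 1 := by
      rw [← mul_inv_rev, ← mul_assoc, m3', inv_one]
    rw [e4] at e3
    exact eq_inv_of_mul_eq_one_left e3
  -- t commutes with s1, s2
  have tu : Commute t u := ut.symm
  have tr : Commute t r := by rw [hr]; exact commute_cm tu tv'
  have tp : Commute t p := by rw [hp]; exact commute_cm tu tv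
  have tp' : Commute t p' := by rw [hp']; exact commute_cm tp tv'
  have ts1 : Commute t s1 := (tu.mul_right tr).inv_right.mul_right (tp.mul_right tp')
  -- B * A = cj (t s2⁻¹ t⁻¹ s1) b = cj (s2⁻¹ s1) b
  have ts2 : Commute t s2⁻¹ :=
    ((tu.mul_right tr.inv_right).mul_right (tp.mul_right tp'.inv_right)).inv_right
  have e5 : B * A = cj (s2⁻¹ * s1) b := by
    rw [hA, hB, ← mul_cj]
    have : t * s2⁻¹ * (t⁻¹ * s1) = s2⁻¹ * s1 := by
      rw [ts2.eq]; group
    rw [this]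
  have e6 : B * A = u⁻¹ * u⁻¹ := by
    rw [A1, B1, mul_inv_rev, inv_inv, mul_inv_rev]
    have c : Commute (t * q) u⁻¹ := (tu.mul_left qu).inv_right
    rw [show t * q * u⁻¹ * ((t * q)⁻¹ * u⁻¹) = (t * q * u⁻¹) * (t * q)⁻¹ * u⁻¹ by group, c.eq]
    group
  have e7 : s2⁻¹ * s1 = u⁻¹ * u⁻¹ * (p' * p') := by
    have c1 : Commute u p' := p'u.symm
    have c2 : Commute r p' := p'r.symm
    have c3 : Commute p p' := p'p.symm
    have w1 : s1 = u⁻¹ * r⁻¹ * p * p' := by
      rw [hs1, mul_inv_rev, ur.symm.inv_inv.eq]; group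
    have w2 : s2 = u * r⁻¹ * p * p'⁻¹ := by rw [hs2]; group
    rw [w1, w2]
    have w3 : (u * r⁻¹ * p * p'⁻¹)⁻¹ * (u⁻¹ * r⁻¹ * p * p')
        = p' * p⁻¹ * (r * (u⁻¹ * u⁻¹)) * r⁻¹ * p * p' := by group
    have w4 : Commute r (u⁻¹ * u⁻¹) := (ur.symm.inv_right).mul_right (ur.symm.inv_right)
    have w5 : Commute p⁻¹ (u⁻¹ * u⁻¹) := (up.symm.inv_inv).mul_right (up.symm.inv_inv)
    have w6 : Commute p' (u⁻¹ * u⁻¹) := (p'u.inv_right).mul_right (p'u.inv_right)
    rw [w3, w4.eq]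
    have w7 : p' * p⁻¹ * (u⁻¹ * u⁻¹ * r) * r⁻¹ * p * p'
        = p' * (p⁻¹ * (u⁻¹ * u⁻¹)) * p * p' := by group
    rw [w7, w5.eq]
    have w8 : p' * (u⁻¹ * u⁻¹ * p⁻¹) * p * p' = (p' * (u⁻¹ * u⁻¹)) * p' := by group
    rw [w8, w6.eq]; group
  rw [e6] at e5
  rw [e7] at e5
  -- u⁻² = u, p'² = p'⁻¹
  have u2 : u⁻¹ * u⁻¹ = u := by
    have := inv_eq_sq (A := u⁻¹) (by rw [inv_pow, u3, inv_one])
    rw [inv_inv] at this; exact this.symm
  have p2 : p' * p' = p'⁻¹ := (inv_eq_sq p'3).symm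
  rw [u2, p2] at e5
  -- u = (u p'⁻¹)^b
  rw [e5, cj_cj_inv, ← e5]

/-- the hypotheses hold inside the class -/
theorem KH_of {p0 r0 z y b v v' c' : G} (law : Law G) (h : Hs p0 r0 z)
    (hy : y ∈ Y z) (hv : v ∈ Y z) (hv' : v' ∈ Y z) (hc' : c' ∈ Y z)
    (hmb : Commute (cm v' c') b) :
    KH (cm v' c') y b v v' (cm (cm v' c') y) (cm (cm v' c') v) (cm (cm (cm v' c') y) v)
      (cm (cm (cm v' c') v) y) (cm (cm (cm v' c') y) v')
      (cm (cm (cm (cm v' c') y) v) v') := by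
  have Lv' : LL z v' := LL.base hv'
  have Lm : LL z (cm v' c') := LL.step Lv' hc'
  have Lu : LL z (cm (cm v' c') y) := LL.step Lm hy
  have Lt : LL z (cm (cm v' c') v) := LL.step Lm hv
  have Lp : LL z (cm (cm (cm v' c') y) v) := LL.step Lu hv
  have Lr : LL z (cm (cm (cm v' c') y) v') := LL.step Lu hv'
  have pmy := Lm.perpY law h hy
  have pmv := Lm.perpY law h hv
  have puv := Lu.perpY law h hv
  have puv' := Lu.perpY law h hv'
  have ppv' := Lp.perpY law h hv'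
  have pv'c' := Lv'.perpY law h hc'
  -- t = [v',c',v] commutes with v'
  have T1 := lemT law h Lv' hc' hv
  -- q = [m,v,y] commutes with m,v,y ; 
  have T2 := lemT law h Lm hv hy
  -- p' = [u,v,v'] commutes with u,v,v'
  have T3 := lemT law h Lu hv hv'
  have ut : Commute (cm (cm v' c') y) (cm (cm v' c') v) := E2 law h Lm hy hv
  have rp : Commute (cm (cm (cm v' c') y) v') (cm (cm (cm v' c') y) v) := E2 law h Lu hv' hv
  exact {
    hu := rfl
    ht := rfl
    hp := rfl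
    hq := rfl
    hr := rfl
    hp' := rfl
    mb := hmb
    mv' := pv'c'.comm_left
    m3 := Lm.cube law h
    mu := pmy.comm_left.symm
    mt := pmv.comm_left.symm
    ut := ut
    uy := pmy.comm_right
    tv := pmv.comm_right
    qm := T2.1
    qu := (commute_cm T2.1 T2.2.2)
    qt := (commute_cm T2.1 T2.2.1)
    tv' := T1.1
    ur := puv'.comm_left.symm
    up := puv.comm_left.symm
    rp := rp
    pv := puv.comm_right
    rv' := puv'.comm_right
    p'v' := T3.2.2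
    p'u := T3.1
    p'r := commute_cm T3.1 T3.2.2
    p'p := commute_cm T3.1 T3.2.1
    u3 := Lu.cube law h
    p'3 := law _ _ }

/-- Key Lemma: `[m,y,b] = 1` for `m = [v',c']`, `c' ∈ C(b)`, `m ∈ C(b)` -/
theorem key_lemma {p0 r0 z y b v' c' : G} (law : Law G) (h : Hs p0 r0 z)
    (hy : y ∈ Y z) (hb : b ∈ Y z) (hv' : v' ∈ Y z) (hc' : c' ∈ Y z)
    (hcb : Commute c' b) (hmb : Commute (cm v' c') b) :
    Commute (cm (cm v' c') y) b := by
  obtain ⟨g, hg⟩ := Y_conj hy hb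
  set v := cj v' g⁻¹ with hv
  have vg : cj v g = v' := by rw [hv, cj_inv_cj]
  have hvY : v ∈ Y z := Y_cj hv' _
  have pv'c' := thm1 law h hv' hc'
  set m := cm v' c' with hm
  have mv' : Commute m v' := pv'c'.comm_left
  have K := KH_of law h hy hvY hv' hc' hmb
  -- the law for (v y) and g
  have gen : ∀ (v v' c' y b : G), cj y g = b → cj v g = v' → Commute c' b →
      Commute (cm v' c') b →
      (y⁻¹ * v⁻¹ * v' * b) ^ 3 = 1 ∧ (y⁻¹ * v⁻¹ * v' * b * cm v' c') ^ 3 = 1 := by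
    intro v v' c' y b hg vg hcb hmb
    constructor
    · have := law.conj (v * y) 1 g
      rw [cj_one, mul_cj, hg, vg] at this
      rw [← this]; congr 1; group
    · have := law.conj (v * y) 1 (g * c')
      rw [cj_one, cj_mul, mul_cj, hg, vg, mul_cj, cj_of_commute hcb.symm, cj_eq v' c'] at this
      rw [← this]; congr 1
      have : b * cm v' c' = cm v' c' * b := hmb.eq.symm
      calc y⁻¹ * v⁻¹ * v' * b * cm v' c' = y⁻¹ * v⁻¹ * v' * (b * cm v' c') := by group
        _ = y⁻¹ * v⁻¹ * v' * (cm v' c' * b) := by rw [this]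
        _ = (v * y)⁻¹ * (v' * cm v' c' * b) := by group
  have minv : cm v'⁻¹ c' = m⁻¹ := cm_inv_left mv'
  obtain ⟨a1, a2⟩ := gen v v' c' y b hg vg hcb hmb
  obtain ⟨a3, a4⟩ := gen v⁻¹ v'⁻¹ c' y b hg (by rw [inv_cj, vg]) hcb
    (by rw [minv]; exact hmb.inv_left)
  rw [minv, inv_inv] at a4
  rw [inv_inv] at a3
  have R1 := K.key a1 a2 a3 a4
  -- now with y⁻¹, b⁻¹
  obtain ⟨a5, a6⟩ := gen v v' c' y⁻¹ b⁻¹ (by rw [inv_cj, hg]) vg hcb.inv_right hmb.inv_right
  obtain ⟨a7, a8⟩ := gen v⁻¹ v'⁻¹ c' y⁻¹ b⁻¹ (by rw [inv_cj, hg]) (by rw [inv_cj, vg])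
    hcb.inv_right (by rw [minv]; exact hmb.inv_left.inv_right)
  rw [minv, inv_inv v] at a8
  rw [inv_inv v] at a7
  have K' : KH m y⁻¹ b⁻¹ v v' (cm m y)⁻¹ (cm m v) (cm (cm m y) v)⁻¹ (cm (cm m v) y)⁻¹
      (cm (cm m y) v')⁻¹ (cm (cm (cm m y) v) v')⁻¹ := by
    have q1 : Commute (cm (cm m v) y) y := by
      have := lemT law h (LL.step (LL.base hv') hc') hvY hy
      exact this.2.2
    have q2 : Commute (cm (cm m v) y) (cm m v) := K.qt
    exact {
      hu := (cm_inv_right K.uy).symm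
      ht := rfl
      hp := (cm_inv_left K.up.symm).symm
      hq := (cm_inv_right q1).symm
      hr := (cm_inv_left K.ur.symm).symm
      hp' := (cm_inv_left K.p'p).symm
      mb := K.mb.inv_right
      mv' := K.mv'
      m3 := K.m3
      mu := K.mu.inv_right
      mt := K.mt
      ut := K.ut.inv_left
      uy := K.uy.inv_inv
      tv := K.tv
      qm := K.qm.inv_left
      qu := K.qu.inv_inv
      qt := K.qt.inv_left
      tv' := K.tv'
      ur := K.ur.inv_inv
      up := K.up.inv_inv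
      rp := K.rp.inv_inv
      pv := K.pv.inv_left
      rv' := K.rv'.inv_left
      p'v' := K.p'v'.inv_left
      p'u := K.p'u.inv_inv
      p'r := K.p'r.inv_inv
      p'p := K.p'p.inv_inv
      u3 := by rw [inv_pow, K.u3, inv_one]
      p'3 := by rw [inv_pow, K.p'3, inv_one] }
  have R2 := K'.key a5 a6 a7 a8
  -- R1 : u^(b⁻¹) = u p'⁻¹ ; R2 : (u⁻¹)^b = u⁻¹ p'
  set u := cm m y with hu
  set p' := cm (cm u v) v' with hp'
  rw [inv_inv, inv_inv, inv_cj] at R2
  have pub : Perp u b := (LL.step (LL.step (LL.base hv') hc') hy).perpY law h hb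
  have S1 : cj u b = u * cm u b := cj_eq u b
  have S2 : cj u b⁻¹ = u * (cm u b)⁻¹ := by rw [cj_eq, cm_inv_right pub.comm_right]
  have S3 : cm u b = p' := by
    rw [S2] at R1
    exact inv_inj.1 (mul_left_cancel R1)
  have S4 : cm u b = p'⁻¹ := by
    have : cj u b = p'⁻¹ * u := by
      rw [← inv_inj, R2, mul_inv_rev, inv_inv]
    rw [S1, ← K.p'u.inv_left.eq.symm] at this
    exact mul_left_cancel this
  have S5 : p' * p' = 1 := by
    calc p' * p' = cm u b * p' := by rw [S3]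
      _ = 1 := by rw [S4, inv_mul_cancel]
  rw [← cm_eq_one_iff, S3]
  exact eq_one_of_sq S5 (law _ _)

/-- `P k` : `b` commutes with `b^(u1 ... uj)`, `j ≤ k` -/
def PP (z : G) (k : ℕ) : Prop := ∀ b ∈ Y z, ∀ l : List G, (∀ x ∈ l, x ∈ Y z) → l.length ≤ k →
  Commute b (cj b l.prod)

theorem PP2 {p r z : G} (law : Law G) (h : Hs p r z) : PP z 2 := by
  intro b hb l hl hlen
  match l, hlen with
  | [], _ => simp [cj_one]
  | [x], _ =>
    simp only [List.prod_cons, List.prod_nil, mul_one]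
    exact (thm1 law h hb (hl x (by simp))).comm_cj
  | [x, y], _ =>
    simp only [List.prod_cons, List.prod_nil, mul_one]
    have hx := hl x (by simp)
    have hy := hl y (by simp)
    have p1 := thm1 law h hb hx
    have e := comm_of_eps (EC_one law h hb (LL.base hx) hy) (E1 law h hb (LL.base hx) hy)
    rw [cj_mul, cj_eq b x, mul_cj]
    exact (thm1 law h hb hy).comm_cj.mul_right e
  | _ :: _ :: _ :: _, hh => simp at hh

theorem PP_succ {p r z : G} (law : Law G) (h : Hs p r z) {k : ℕ} (hk : 2 ≤ k) (H : PP z k) :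
    PP z (k + 1) := by
  intro b hb l hl hlen
  rcases Nat.lt_or_ge l.length (k + 1) with h1 | h1
  · exact H b hb l hl (by omega)
  -- l = l' ++ [v', y]
  obtain ⟨l1, y, rfl⟩ : ∃ l1 y, l = l1 ++ [y] := by
    rcases List.eq_nil_or_concat l with h2 | ⟨l1, y, h2⟩
    · subst h2; simp at h1
    · exact ⟨l1, y, by simpa using h2⟩
  obtain ⟨l2, v', rfl⟩ : ∃ l2 v', l1 = l2 ++ [v'] := by
    rcases List.eq_nil_or_concat l1 with h2 | ⟨l1', y', h2⟩
    · subst h2; simp at h1; omega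
    · exact ⟨l1', y', by simpa using h2⟩
  simp only [List.length_append, List.length_cons, List.length_nil] at hlen h1
  have hy : y ∈ Y z := hl y (by simp)
  have hv' : v' ∈ Y z := hl v' (by simp)
  have hl2 : ∀ x ∈ l2, x ∈ Y z := fun x hx => hl x (by simp [hx])
  set c' := cj b l2.prod with hc'
  have c'Y : c' ∈ Y z := Y_cj hb _
  have k1 : Commute b c' := H b hb l2 hl2 (by omega)
  have k2 : Commute b (cj c' v') := by
    have := H b hb (l2 ++ [v']) (by
      intro x hx; simp at hx; rcases hx with hx | rfl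
      · exact hl2 x hx
      · exact hv') (by simp; omega)
    simpa [cj_mul] using this
  have k3 : Commute b (cj c' y) := by
    have := H b hb (l2 ++ [y]) (by
      intro x hx; simp at hx; rcases hx with hx | rfl
      · exact hl2 x hx
      · exact hy) (by simp; omega)
    simpa [cj_mul] using this
  have e1 : cm v' c' = (cj c' v')⁻¹ * c' := by simp [cm, cj, mul_assoc]
  have hmb : Commute (cm v' c') b := by
    rw [e1]; exact (k2.symm.inv_left).mul_left k1.symm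
  have K := key_lemma law h hy hb hv' c'Y k1.symm hmb
  -- b commutes with m^y = (c'^{v' y})⁻¹ c'^y
  have e2 : cj (cm v' c') y = cm v' c' * cm (cm v' c') y := cj_eq _ _
  have k4 : Commute b (cj (cm v' c') y) := by
    rw [e2]; exact hmb.symm.mul_right K.symm
  rw [e1, mul_cj, inv_cj] at k4
  have k5 := k4.mul_right k3.inv_right
  rw [mul_inv_cancel_right] at k5
  have k6 : Commute b (cj (cj c' v') y) := Commute.inv_right_iff.1 k5
  have e3 : (l2 ++ [v'] ++ [y]).prod = l2.prod * (v' * y) := by simp [mul_assoc]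
  rw [e3, cj_mul, cj_mul]
  exact k6

theorem PP_all {p r z : G} (law : Law G) (h : Hs p r z) (k : ℕ) : PP z k := by
  have : ∀ k, PP z (k + 2) := by
    intro k
    induction k with
    | zero => exact PP2 law h
    | succ k ih => exact PP_succ law h (by omega) ih
  intro b hb l hl hlen
  exact this k b hb l hl (by omega)

/-- the normal subgroup generated by `z` -/
def NN (z : G) : Subgroup G := Subgroup.closure (Y z)

theorem mem_list {p r z : G} (law : Law G) (h : Hs p r z) {n : G} (hn : n ∈ NN z) :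
    ∃ l : List G, (∀ x ∈ l, x ∈ Y z) ∧ l.prod = n := by
  unfold NN at hn
  induction hn using Subgroup.closure_induction with
  | mem x hx => exact ⟨[x], by simpa using hx, by simp⟩
  | one => exact ⟨[], by simp, by simp⟩
  | mul x y hx hy ihx ihy =>
    obtain ⟨l1, a1, b1⟩ := ihx
    obtain ⟨l2, a2, b2⟩ := ihy
    refine ⟨l1 ++ l2, ?_, by simp [b1, b2]⟩
    intro x hx; simp at hx; rcases hx with hx | hx
    · exact a1 x hx
    · exact a2 x hx
  | inv x hx ih =>
    obtain ⟨l, a, b⟩ := ih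
    subst b
    clear hx
    induction l with
    | nil => exact ⟨[], by simp, by simp⟩
    | cons c l ih =>
      obtain ⟨l', a', b'⟩ := ih (fun x hx => a x (by simp [hx]))
      have hc : c ∈ Y z := a c (by simp)
      have c3 : c ^ 3 = 1 := (LL.base hc).cube law h
      refine ⟨l' ++ [c, c], ?_, ?_⟩
      · intro x hx; simp at hx; rcases hx with hx | hx
        · exact a' x hx
        · rw [hx]; exact hc
      · simp [b', inv_eq_sq c3]

/-- Theorem 2: `y` commutes with `y^n` for all `n ∈ ⟨z^G⟩` -/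
theorem thm2 {p r z y n : G} (law : Law G) (h : Hs p r z) (hy : y ∈ Y z) (hn : n ∈ NN z) :
    Commute y (cj y n) := by
  obtain ⟨l, a, rfl⟩ := mem_list law h hn
  exact PP_all law h l.length y hy l a le_rfl

end Pool.Agent.Lib.MP_107960_al.H44
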