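import Mathlib
import Pool.Agent.Lib.MP_107960_al.H44.Key

set_option autoImplicit false

namespace Pool.Agent.Lib.MP_107960_al.H44

variable {G : Type*} [Group G]

/-- every finite subset of `N` generates a finite subgroup -/
def LF (N : Subgroup G) : Prop :=
  ∀ T : Set G, T.Finite → T ⊆ N → (Subgroup.closure T : Set G).Finite

theorem LF.mono {A B : Subgroup G} (h : A ≤ B) (hB : LF B) : LF A :=
  fun T hT hTA => hB T hT (hTA.trans h)

theorem LF_bot : LF (⊥ : Subgroup G) := by
  intro T _ hT
  have : Subgroup.closure T ≤ ⊥ := by rw [Subgroup.closure_le]; exact hT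
  have h2 : Subgroup.closure T = ⊥ := le_bot_iff.1 this
  rw [h2]; simp

/-- a finite set of commuting elements of order dividing 3 generates a finite subgroup -/
theorem finite_closure_comm {S : Set G} (hS : S.Finite) (hc : ∀ x ∈ S, ∀ y ∈ S, x * y = y * x)
    (h3 : ∀ x ∈ S, x ^ 3 = 1) :
    (Subgroup.closure S : Set G).Finite ∧ ∀ x ∈ Subgroup.closure S, x ^ 3 = 1 := by
  have hcomm : ∀ x ∈ Subgroup.closure S, ∀ y ∈ Subgroup.closure S, x * y = y * x := by
    have hC := Subgroup.isMulCommutative_closure hc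
    intro x hx y hy
    have := hC.is_comm.comm (⟨x, hx⟩ : Subgroup.closure S) ⟨y, hy⟩
    exact congrArg Subtype.val this
  have ht : ∀ x ∈ Subgroup.closure S, x ^ 3 = 1 := by
    intro x hx
    induction hx using Subgroup.closure_induction with
    | mem x hx => exact h3 x hx
    | one => exact one_pow 3
    | mul x y hx hy ihx ihy =>
      have : Commute x y := hcomm x hx y hy
      rw [this.mul_pow, ihx, ihy, one_mul]
    | inv x hx ih => rw [inv_pow, ih, inv_one]
  refine ⟨?_, ht⟩
  let _ : CommGroup (Subgroup.closure S) :=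
    { (inferInstance : Group (Subgroup.closure S)) with
      mul_comm := fun x y => Subtype.ext (hcomm x x.2 y y.2) }
  have fg : Group.FG (Subgroup.closure S) := by
    rw [Group.fg_iff_subgroup_fg]
    exact ⟨hS.toFinset, by simp⟩
  have hfin : Finite (Subgroup.closure S) := by
    apply CommGroup.finite_of_fg_isMulTorsion
    intro x
    rw [isOfFinOrder_iff_pow_eq_one]
    exact ⟨3, by norm_num, Subtype.ext (by simpa using ht x x.2)⟩
  exact Set.toFinite _

theorem fin_step {K : Subgroup G} (hK : (K : Set G).Finite) {y : G} (y3 : y ^ 3 = 1)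
    (hc : ∀ k ∈ K, Commute y (cj y k)) :
    (Subgroup.closure ((K : Set G) ∪ {y}) : Set G).Finite := by
  set S : Set G := (fun k => cj y k) '' (K : Set G) with hS
  have hSf : S.Finite := hK.image _
  have hcomm : ∀ x ∈ S, ∀ x' ∈ S, x * x' = x' * x := by
    rintro _ ⟨k, hk, rfl⟩ _ ⟨k', hk', rfl⟩
    have h1 := hc (k' * k⁻¹) (K.mul_mem hk' (K.inv_mem hk))
    have h2 := commute_cj h1 k
    rw [← cj_mul, inv_mul_cancel_right] at h2
    exact h2
  have h3 : ∀ x ∈ S, x ^ 3 = 1 := by
    rintro _ ⟨k, hk, rfl⟩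
    show (cj y k) ^ 3 = 1
    rw [← pow_cj, y3, one_cj]
  have hA := (finite_closure_comm hSf hcomm h3).1
  set A := Subgroup.closure S with hAdef
  -- K normalises A
  have hn : ∀ k ∈ K, ∀ a ∈ A, cj a k ∈ A := by
    intro k hk a ha
    induction ha using Subgroup.closure_induction with
    | mem x hx =>
      obtain ⟨k', hk', rfl⟩ := hx
      apply Subgroup.subset_closure
      exact ⟨k' * k, K.mul_mem hk' hk, cj_mul y k' k⟩
    | one => rw [one_cj]; exact A.one_mem
    | mul x x' hx hx' ih ih' => rw [mul_cj]; exact A.mul_mem ih ih'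
    | inv x hx ih => rw [inv_cj]; exact A.inv_mem ih
  -- the product set
  have hfin : (Set.image2 (fun a k => a * k) (A : Set G) (K : Set G)).Finite :=
    Set.Finite.image2 _ hA hK
  refine hfin.subset ?_
  intro x hx
  have hx' : x ∈ Subgroup.closure ((K : Set G) ∪ {y}) := hx
  clear hx
  induction hx' using Subgroup.closure_induction with
  | mem x hx =>
    rcases hx with hx | hx
    · exact ⟨1, A.one_mem, x, hx, by simp⟩
    · refine ⟨x, ?_, 1, K.one_mem, by simp⟩
      apply Subgroup.subset_closure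
      exact ⟨1, K.one_mem, by rw [hx]; exact cj_one y⟩
  | one => exact ⟨1, A.one_mem, 1, K.one_mem, by simp⟩
  | mul x x' hx hx' ih ih' =>
    obtain ⟨a, ha, k, hk, rfl⟩ := ih
    obtain ⟨a', ha', k', hk', rfl⟩ := ih'
    refine ⟨a * cj a' k⁻¹, A.mul_mem ha (hn _ (K.inv_mem hk) _ ha'), k * k', K.mul_mem hk hk', ?_⟩
    simp [cj, mul_assoc]
  | inv x hx ih =>
    obtain ⟨a, ha, k, hk, rfl⟩ := ih
    refine ⟨cj a⁻¹ k, hn _ hk _ (A.inv_mem ha), k⁻¹, K.inv_mem hk, ?_⟩
    simp [cj, mul_assoc]

theorem LF_NN {p r z : G} (law : Law G) (h : Hs p r z) : LF (NN z) := by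
  -- finite subsets of the class
  have key : ∀ T : Set G, T.Finite → T ⊆ Y z → (Subgroup.closure T : Set G).Finite := by
    intro T hT
    induction T, hT using Set.Finite.induction_on with
    | empty => intro _; simp
    | @insert y T hy hT ih =>
      intro hsub
      have hT' : T ⊆ Y z := (Set.subset_insert y T).trans hsub
      have hyY : y ∈ Y z := hsub (Set.mem_insert y T)
      have hK := ih hT'
      have := fin_step (K := Subgroup.closure T) hK (y := y) ((LL.base hyY).cube law h) (by
        intro k hk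
        exact thm2 law h hyY ((Subgroup.closure_mono hT') hk))
      refine this.subset ?_
      have hle : Subgroup.closure (insert y T) ≤
          Subgroup.closure ((Subgroup.closure T : Set G) ∪ {y}) := by
        rw [Subgroup.closure_le]
        intro x hx
        apply Subgroup.subset_closure
        rcases hx with hx | hx
        · right; exact hx
        · left; exact Subgroup.subset_closure hx
      exact hle
  -- any element of the closure lies in the closure of a finite subset
  have key2 : ∀ x ∈ NN z, ∃ U : Set G, U.Finite ∧ U ⊆ Y z ∧ x ∈ Subgroup.closure U := by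
    intro x hx
    unfold NN at hx
    induction hx using Subgroup.closure_induction with
    | mem x hx => exact ⟨{x}, Set.finite_singleton x, by simpa using hx,
        Subgroup.subset_closure rfl⟩
    | one => exact ⟨∅, Set.finite_empty, by simp, Subgroup.one_mem _⟩
    | mul x x' hx hx' ih ih' =>
      obtain ⟨U, a, b, c⟩ := ih
      obtain ⟨U', a', b', c'⟩ := ih'
      exact ⟨U ∪ U', a.union a', Set.union_subset b b', Subgroup.mul_mem _
        (Subgroup.closure_mono Set.subset_union_left c)
        (Subgroup.closure_mono Set.subset_union_right c')⟩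
    | inv x hx ih =>
      obtain ⟨U, a, b, c⟩ := ih
      exact ⟨U, a, b, Subgroup.inv_mem _ c⟩
  intro T hT hTN
  have : ∃ U : Set G, U.Finite ∧ U ⊆ Y z ∧ T ⊆ Subgroup.closure U := by
    induction T, hT using Set.Finite.induction_on with
    | empty => exact ⟨∅, Set.finite_empty, by simp, by simp⟩
    | @insert y T hy hT ih =>
      obtain ⟨U, a, b, c⟩ := ih ((Set.subset_insert y T).trans hTN)
      obtain ⟨U', a', b', c'⟩ := key2 y (hTN (Set.mem_insert y T))
      refine ⟨U ∪ U', a.union a', Set.union_subset b b', ?_⟩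
      intro x hx
      rcases hx with hx | hx
      · rw [hx]; exact Subgroup.closure_mono Set.subset_union_right c'
      · exact Subgroup.closure_mono Set.subset_union_left (c hx)
  obtain ⟨U, a, b, c⟩ := this
  refine (key U a b).subset ?_
  have : Subgroup.closure T ≤ Subgroup.closure U := by
    rw [Subgroup.closure_le]; exact c
  exact this

theorem LF.map {H : Type*} [Group H] {A : Subgroup G} (hA : LF A) (f : G →* H) :
    LF (A.map f) := by
  intro T hT hTA
  have : ∃ T' : Set G, T'.Finite ∧ T' ⊆ A ∧ f '' T' = T := by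
    have h1 : T ⊆ f '' (A : Set G) := by simpa using hTA
    obtain ⟨T', h2, h3⟩ := Set.subset_image_iff.1 h1
    obtain ⟨T2, h4, h5⟩ := Set.exists_subset_bijOn T' f
    rw [h3] at h5
    refine ⟨T2, ?_, h4.trans h2, h5.image_eq⟩
    exact Set.Finite.of_finite_image (by rw [h5.image_eq]; exact hT) h5.injOn
  obtain ⟨T', h1, h2, h3⟩ := this
  rw [← h3, ← MonoidHom.map_closure, Subgroup.coe_map]
  exact (hA T' h1 h2).image f

/-- Schmidt: extensions of locally finite by locally finite -/
theorem LF_ext {N : Subgroup G} [N.Normal] (hN : LF N) {M : Subgroup G}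
    (hM : LF (M.map (QuotientGroup.mk' N))) : LF M := by
  intro T hT hTM
  set F := Subgroup.closure T with hF
  set φ := QuotientGroup.mk' N with hφ
  have hFfin : (F.map φ : Set (G ⧸ N)).Finite := by
    rw [hF, MonoidHom.map_closure]
    exact hM _ (hT.image _) (by
      rintro _ ⟨t, ht, rfl⟩
      exact Subgroup.mem_map_of_mem φ (hTM ht))
  have fgF : Group.FG F := by
    rw [Group.fg_iff_subgroup_fg]
    exact ⟨hT.toFinset, by simp [hF]⟩
  set ψ : F →* G ⧸ N := φ.comp F.subtype with hψ
  have hr : Finite ψ.range := by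
    have : ψ.range = F.map φ := by
      rw [hψ, MonoidHom.range_comp, Subgroup.range_subtype]
    rw [this]
    exact hFfin.to_subtype
  have hfi : ψ.ker.FiniteIndex := Subgroup.finiteIndex_ker ψ
  have fgk : Group.FG ψ.ker := Subgroup.fg_of_index_ne_zero ψ.ker
  rw [Group.fg_iff_subgroup_fg] at fgk
  obtain ⟨S, hS⟩ := fgk
  have hkfin : Finite ψ.ker := by
    have h1 : (Subgroup.closure ((F.subtype) '' (S : Set F)) : Set G).Finite := by
      apply hN _ (S.finite_toSet.image _)
      rintro _ ⟨s, hs, rfl⟩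
      have : s ∈ ψ.ker := by rw [← hS]; exact Subgroup.subset_closure hs
      rw [MonoidHom.mem_ker, hψ, MonoidHom.comp_apply, hφ, QuotientGroup.mk'_apply,
        QuotientGroup.eq_one_iff] at this
      exact this
    rw [← MonoidHom.map_closure, hS] at h1
    have h2 : ((ψ.ker : Set F)).Finite := by
      rw [Subgroup.coe_map] at h1
      exact Set.Finite.of_finite_image h1 (Subtype.val_injective.injOn)
    exact h2.to_subtype
  have : Finite F := by
    have e := Subgroup.groupEquivQuotientProdSubgroup (s := ψ.ker)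
    have : Finite (F ⧸ ψ.ker) := inferInstance
    exact Finite.of_equiv _ e.symm
  exact Set.toFinite _

theorem LF_sup {A B : Subgroup G} [A.Normal] (hA : LF A) (hB : LF B) : LF (A ⊔ B) := by
  apply LF_ext hA
  rw [Subgroup.map_sup]
  have : A.map (QuotientGroup.mk' A) = ⊥ := by
    rw [Subgroup.map_eq_bot_iff, QuotientGroup.ker_mk']
  rw [this, bot_sup_eq]
  exact hB.map _

theorem LF_closure {U : Set G} (hU : ∀ u ∈ U, ∃ A : Subgroup G, A.Normal ∧ u ∈ A ∧ LF A) :
    LF (Subgroup.closure U) := by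
  have key : ∀ x ∈ Subgroup.closure U, ∃ A : Subgroup G, A.Normal ∧ x ∈ A ∧ LF A := by
    intro x hx
    induction hx using Subgroup.closure_induction with
    | mem x hx => exact hU x hx
    | one => exact ⟨⊥, inferInstance, Subgroup.one_mem _, LF_bot⟩
    | mul x x' hx hx' ih ih' =>
      obtain ⟨A, n1, a1, b1⟩ := ih
      obtain ⟨B, n2, a2, b2⟩ := ih'
      exact ⟨A ⊔ B, Subgroup.sup_normal A B,
        Subgroup.mul_mem _ ((le_sup_left : A ≤ A ⊔ B) a1) ((le_sup_right : B ≤ A ⊔ B) a2),
        LF_sup b1 b2⟩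
    | inv x hx ih =>
      obtain ⟨A, n1, a1, b1⟩ := ih
      exact ⟨A, n1, Subgroup.inv_mem _ a1, b1⟩
  intro T hT hTU
  have : ∃ A : Subgroup G, A.Normal ∧ T ⊆ A ∧ LF A := by
    induction T, hT using Set.Finite.induction_on with
    | empty => exact ⟨⊥, inferInstance, by simp, LF_bot⟩
    | @insert y T hy hT ih =>
      obtain ⟨A, n1, a1, b1⟩ := ih ((Set.subset_insert y T).trans hTU)
      obtain ⟨B, n2, a2, b2⟩ := key y (hTU (Set.mem_insert y T))
      refine ⟨A ⊔ B, Subgroup.sup_normal A B, ?_, LF_sup b1 b2⟩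
      intro x hx
      rcases hx with hx | hx
      · rw [hx]; exact (le_sup_right : B ≤ A ⊔ B) a2
      · exact (le_sup_left : A ≤ A ⊔ B) (a1 hx)
  obtain ⟨A, n1, a1, b1⟩ := this
  exact b1 T hT a1

/-- the subgroup generated by all Heisenberg elements -/
def KK (G : Type*) [Group G] : Subgroup G := Subgroup.closure {z | ∃ p r : G, Hs p r z}

theorem NN_normal (z : G) : (NN z).Normal := by
  refine ⟨?_⟩
  intro n hn g
  unfold NN at hn ⊢
  induction hn using Subgroup.closure_induction with
  | mem x hx =>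
    have : g * x * g⁻¹ = cj x g⁻¹ := by simp [cj]
    rw [this]
    exact Subgroup.subset_closure (Y_cj hx _)
  | one => simp
  | mul x x' hx hx' ih ih' =>
    have : g * (x * x') * g⁻¹ = (g * x * g⁻¹) * (g * x' * g⁻¹) := by group
    rw [this]; exact Subgroup.mul_mem _ ih ih'
  | inv x hx ih =>
    have : g * x⁻¹ * g⁻¹ = (g * x * g⁻¹)⁻¹ := by group
    rw [this]; exact Subgroup.inv_mem _ ih

theorem LF_KK (law : Law G) : LF (KK G) := by
  apply LF_closure
  rintro z ⟨p, r, h⟩
  exact ⟨NN z, NN_normal z, Subgroup.subset_closure (Y_self z), LF_NN law h⟩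

instance KK_normal : (KK G).Normal := by
  refine ⟨?_⟩
  intro n hn g
  unfold KK at hn ⊢
  induction hn using Subgroup.closure_induction with
  | mem x hx =>
    obtain ⟨p, r, h⟩ := hx
    have : g * x * g⁻¹ = cj x g⁻¹ := by simp [cj]
    rw [this]
    exact Subgroup.subset_closure ⟨_, _, h.cjg g⁻¹⟩
  | one => simp
  | mul x x' hx hx' ih ih' =>
    have : g * (x * x') * g⁻¹ = (g * x * g⁻¹) * (g * x' * g⁻¹) := by group
    rw [this]; exact Subgroup.mul_mem _ ih ih'
  | inv x hx ih =>
    have : g * x⁻¹ * g⁻¹ = (g * x * g⁻¹)⁻¹ := by group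
    rw [this]; exact Subgroup.inv_mem _ ih

theorem Law.quot (law : Law G) (N : Subgroup G) [N.Normal] : Law (G ⧸ N) := by
  intro x y
  obtain ⟨a, rfl⟩ := QuotientGroup.mk_surjective x
  obtain ⟨b, rfl⟩ := QuotientGroup.mk_surjective y
  have := law a b
  have h2 := congrArg (QuotientGroup.mk' N) this
  simpa [cm] using h2

/-- the structure of `⟨s,t⟩`, `s^3 = t^3 = (s⁻¹t)^3 = 1` -/
theorem tri {s t : G} (law : Law G) (s3 : s ^ 3 = 1) (t3 : t ^ 3 = 1)
    (st3 : (s⁻¹ * t) ^ 3 = 1) : Hs (cm s t) s ((t * s) ^ 3) := by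
  have si : s⁻¹ = s * s := inv_eq_sq s3
  have ti : t⁻¹ = t * t := inv_eq_sq t3
  have sii : s⁻¹ * s⁻¹ = s := by
    have := inv_eq_sq (A := s⁻¹) (by rw [inv_pow, s3, inv_one])
    rw [inv_inv] at this; exact this.symm
  -- t s⁻¹ t = s t⁻¹ s
  have R : t * s⁻¹ * t = s * t⁻¹ * s := by
    have h : s⁻¹ * (t * s⁻¹ * t) * s⁻¹ * t = 1 := by
      rw [← st3]; simp [pow_succ, mul_assoc]
    have h3 : t * s⁻¹ * t = s * (s⁻¹ * (t * s⁻¹ * t) * s⁻¹ * t) * t⁻¹ * s := by group
    rw [h3, h]; group
  set a0 := s * t with ha0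
  set a1 := t * s with ha1
  set a2 := s⁻¹ * t * s⁻¹ with ha2
  have c01 : Commute a0 a1 := by
    show s * t * (t * s) = t * s * (s * t)
    have h1 : s * t * (t * s) = s * t⁻¹ * s := by rw [ti]; group
    have h2 : t * s * (s * t) = t * s⁻¹ * t := by rw [si]; group
    rw [h1, h2, R]
  have k0 : cj a0 s = a1 := by simp [ha0, ha1, cj, mul_assoc]
  have k1 : cj a1 s = a2 := by
    rw [ha1, ha2, cj]
    have : s⁻¹ * (t * s) * s = s⁻¹ * t * (s * s) := by group
    rw [this, ← si]
  have prod : a0 * a1 * a2 = 1 := by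
    rw [ha0, ha1, ha2]
    have : s * t * (t * s) * (s⁻¹ * t * s⁻¹) = s * (t * t * t) * s⁻¹ := by group
    rw [this]
    have : t * t * t = 1 := by rw [← t3]; simp [pow_succ]
    rw [this]; group
  have k2 : a2⁻¹ = a0 * a1 := (eq_inv_of_mul_eq_one_left prod).symm
  have e1 : cm s t = a1⁻¹ * a0 := by simp [cm, ha0, ha1, mul_assoc]
  have e2 : cj (cm s t) s = a0 * a1 * a1 := by
    rw [e1, mul_cj, inv_cj, k0, k1, k2]
  have d3 : a1 ^ 3 = a0 ^ 3 := by
    have := law s t
    rw [e1, (c01.symm.inv_left).mul_pow, inv_pow] at this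
    exact (inv_mul_eq_one.1 this)
  have e3 : cm (cm s t) s = a1 ^ 3 := by
    rw [cm_eq, e2, e1, mul_inv_rev, inv_inv]
    have h : a0⁻¹ * a1 * (a0 * a1 * a1) = a0⁻¹ * (a1 * a0) * a1 * a1 := by group
    rw [h, ← c01.eq]; simp [pow_succ]
  refine ⟨e3.symm, ?_, ?_⟩
  · rw [e1]
    exact (((Commute.refl a1).inv_right).mul_right c01.symm).pow_left 3
  · apply commute_of_cj
    have : cj (a0 ^ 3) s = a1 ^ 3 := by rw [pow_cj, k0]
    rw [d3, this, d3]

theorem normalClosure_comm {c : G} (c3 : c ^ 3 = 1) (h : ∀ g, Commute c (cj c g)) :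
    LF (Subgroup.normalClosure {c}) := by
  have hcc : ∀ x ∈ Group.conjugatesOfSet ({c} : Set G), ∃ g, x = cj c g := by
    intro x hx
    rw [Group.mem_conjugatesOfSet_iff] at hx
    obtain ⟨a, ha, hax⟩ := hx
    rw [Set.mem_singleton_iff] at ha
    subst ha
    obtain ⟨g, hg⟩ := isConj_iff.1 hax
    exact ⟨g⁻¹, by rw [← hg]; simp [cj]⟩
  have hcomm : ∀ x ∈ Group.conjugatesOfSet ({c} : Set G),
      ∀ y ∈ Group.conjugatesOfSet ({c} : Set G), x * y = y * x := by
    intro x hx y hy
    obtain ⟨g, rfl⟩ := hcc x hx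
    obtain ⟨g', rfl⟩ := hcc y hy
    have h1 := commute_cj (h (g' * g⁻¹)) g
    rw [← cj_mul, inv_mul_cancel_right] at h1
    exact h1
  have h3 : ∀ x ∈ Group.conjugatesOfSet ({c} : Set G), x ^ 3 = 1 := by
    intro x hx
    obtain ⟨g, rfl⟩ := hcc x hx
    rw [← pow_cj, c3, one_cj]
  have hC := Subgroup.isMulCommutative_closure hcomm
  intro T hT hTN
  refine (finite_closure_comm hT ?_ ?_).1
  · intro x hx y hy
    have := hC.is_comm.comm (⟨x, hTN hx⟩ : Subgroup.closure _) ⟨y, hTN hy⟩
    exact congrArg Subtype.val this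
  · intro x hx
    have hx' : x ∈ Subgroup.closure (Group.conjugatesOfSet ({c} : Set G)) := hTN hx
    clear hTN hx
    induction hx' using Subgroup.closure_induction with
    | mem x hx => exact h3 x hx
    | one => exact one_pow 3
    | mul x y hx hy ihx ihy =>
      have : Commute x y := by
        have := hC.is_comm.comm (⟨x, hx⟩ : Subgroup.closure _) ⟨y, hy⟩
        exact congrArg Subtype.val this
      rw [this.mul_pow, ihx, ihy, one_mul]
    | inv x hx ih => rw [inv_pow, ih, inv_one]

theorem map_cm {H : Type*} [Group H] (f : G →* H) (x y : G) : f (cm x y) = cm (f x) (f y) := by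
  simp [cm]

theorem map_cj {H : Type*} [Group H] (f : G →* H) (x y : G) : f (cj x y) = cj (f x) (f y) := by
  simp [cj]

theorem Hs_mem_KK {p r z : G} (h : Hs p r z) : z ∈ KK G := Subgroup.subset_closure ⟨p, r, h⟩

/-- in `G/K(G)`: `[c, c^g]` commutes with `c` and `c^g` for every commutator `c` -/
theorem layer1 (law : Law G) (x y g : G) :
    (QuotientGroup.mk' (KK G)) (cm (cm x y) (cj (cm x y) g)) ∈ KK (G ⧸ KK G) := by
  set c := cm x y with hc
  have c3 : c ^ 3 = 1 := law _ _
  have c3' : (cj c g) ^ 3 = 1 := by rw [← pow_cj, c3, one_cj]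
  have st : (c⁻¹ * cj c g) ^ 3 = 1 := by rw [← cm_eq]; exact law _ _
  have T := tri law c3 c3' st
  have hmem := Hs_mem_KK T
  set φ := QuotientGroup.mk' (KK G) with hφ
  have h1 : φ ((cj c g * c) ^ 3) = 1 := by
    rw [hφ, QuotientGroup.mk'_apply, QuotientGroup.eq_one_iff]; exact hmem
  have P : Perp (φ c) (φ (cj c g)) := by
    refine ⟨by rw [← map_pow, c3, map_one], by rw [← map_pow, c3', map_one], ?_, ?_⟩
    · apply pow3_swap
      rw [← map_mul, ← map_pow, h1]
    · rw [← map_inv, ← map_mul, ← map_pow, st, map_one]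
  rw [map_cm]
  exact Hs_mem_KK ⟨rfl, P.comm_left, P.comm_right⟩

/-- Theorem 3: `G'` is locally finite -/
theorem LF_commutator (law : Law G) : LF (Subgroup.closure {c : G | ∃ x y, c = cm x y}) := by
  apply LF_closure
  rintro c ⟨x, y, rfl⟩
  set c := cm x y with hc
  refine ⟨Subgroup.normalClosure {c}, inferInstance, Subgroup.subset_normalClosure rfl, ?_⟩
  set N1 := KK G with hN1
  have L1 : LF N1 := LF_KK law
  have law1 : Law (G ⧸ N1) := law.quot N1
  set N2 := KK (G ⧸ N1) with hN2
  have L2 : LF N2 := LF_KK law1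
  set φ1 := QuotientGroup.mk' N1 with hφ1
  set φ2 := QuotientGroup.mk' N2 with hφ2
  set M := (Subgroup.normalClosure {c} : Subgroup G) with hM
  apply LF_ext L1
  apply LF_ext L2
  -- the image of M in the double quotient
  have hle : (M.map φ1).map φ2 ≤ Subgroup.normalClosure {φ2 (φ1 c)} := by
    rw [Subgroup.map_le_iff_le_comap, Subgroup.map_le_iff_le_comap, hM]
    apply Subgroup.normalClosure_le_normal
    rintro _ rfl
    show φ2 (φ1 c) ∈ Subgroup.normalClosure {φ2 (φ1 c)}
    exact Subgroup.subset_normalClosure rfl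
  refine LF.mono hle ?_
  apply normalClosure_comm
  · rw [← map_pow, ← map_pow, hc, law, map_one, map_one]
  · intro g
    obtain ⟨g1, rfl⟩ := QuotientGroup.mk_surjective g
    obtain ⟨g2, rfl⟩ := QuotientGroup.mk_surjective g1
    have := layer1 law x y g2
    have h2 : φ2 (φ1 (cm (cm x y) (cj (cm x y) g2))) = 1 := by
      rw [hφ2, QuotientGroup.mk'_apply, QuotientGroup.eq_one_iff]; exact this
    rw [map_cm, map_cm, map_cj, map_cj] at h2
    exact cm_eq_one_iff.1 h2

end Pool.Agent.Lib.MP_107960_al.H44
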